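import Pool.Agent.H62.PR.Stm
import Pool.Graph.R_pool_sql_team_seeded_63374d34.N187.PP.GN
import Pool.Graph.R_pool_sql_team_seeded_63374d34.N630.PP.GP

/-!
# Project PR (helper62), parts COC and EQV: existence of the cocycle, and cohomologous cocycles

By helper25.
-/

set_option autoImplicit false
set_option linter.all false

open Polynomial IsDedekindDomain WeierstrassCurve WeierstrassCurve.Affine
open Pool.Agent.TH115.GD Pool.Agent.N874.PP Pool.Agent.N187.PP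
open scoped Classical

namespace Pool.Agent.H25.PR

theorem h3 : S_GP3 := Pool.Agent.N630.PP.gp3
theorem h4 : S_GP4 := Pool.Agent.N630.PP.gp4

section

variable {K : Type} [Field K] {A B : K}

/-- Two points of order two with the same signs are equal. -/
theorem ext_sg (h6 : (6 : K) ≠ 0) (hd : 4 * A ^ 3 + 27 * B ^ 2 ≠ 0)
    {t₁ t₂ t₃ : Sep K} (n1 : t₁ ≠ t₂) (n2 : t₁ ≠ t₃) (n3 : t₂ ≠ t₃) (r1 : Rt A B t₁)
    (r2 : Rt A B t₂) (r3 : Rt A B t₃) {S T : Pt (sW A B) (Sep K)} (hS : (2 : ℕ) • S = 0)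
    (hT : (2 : ℕ) • T = 0) (h : ∀ t : Sep K, Rt A B t → sg S t = sg T t) : S = T := by
  obtain ⟨-, G2, G3, -⟩ := h3 K (Sep K) A B h6 hd t₁ t₂ t₃ r1 r2 r3 n1 n2 n3
  have key : ∀ t : Sep K, Rt A B t → sg (S + T) t = 1 := by
    intro t ht
    rw [G2 S T t hS hT ht, h t ht, sg_mul_self]
  have h2 : (2 : ℕ) • (S + T) = 0 := by rw [nsmul_add, hS, hT, add_zero]
  have h0 := G3 _ h2 (key _ r1) (key _ r2) (key _ r3)
  have e : S = -T := eq_neg_of_add_eq_zero_left h0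
  have e' : T = -T := eq_neg_of_add_eq_zero_left (by rw [← two_nsmul]; exact hT)
  rw [e, ← e']

theorem two_ne (h6 : (6 : K) ≠ 0) : (2 : Sep K) ≠ 0 := by
  intro h
  have h' : (6 : Sep K) = 0 := by linear_combination 3 * h
  apply h6
  exact (algebraMap K (Sep K)).injective (a₁ := 6) (a₂ := 0) (by rw [map_zero, map_ofNat, h'])

theorem exists_sqrt (h6 : (6 : K) ≠ 0) (x : Sep K) : ∃ y : Sep K, y ^ 2 = x := by
  haveI : NeZero ((2 : ℕ) : Sep K) := ⟨by exact_mod_cast two_ne h6⟩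
  exact IsSepClosed.exists_pow_nat_eq x 2

theorem isCoc_of_beta (h6 : (6 : K) ≠ 0) (hd : 4 * A ^ 3 + 27 * B ^ 2 ≠ 0)
    (hirr : Irreducible (X ^ 3 + C A * X + C B : K[X]))
    {f : (Sep K ≃ₐ[K] Sep K) → Pt (sW A B) (Sep K)} (hf2 : ∀ σ, (2 : ℕ) • f σ = 0)
    {β : Sep K → Sep K} (hβ : IsBeta A B f β) : IsCoc (sW A B) f := by
  obtain ⟨t₁, t₂, t₃, n1, n2, n3, r1, r2, r3, rr⟩ := exists_roots h6 hirr
  obtain ⟨-, G2, -, -⟩ := h3 K (Sep K) A B h6 hd t₁ t₂ t₃ r1 r2 r3 n1 n2 n3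
  refine ⟨?_, ?_⟩
  · rw [IsLocallyConstant.iff_exists_open]
    intro σ
    refine ⟨((fun τ : Sep K ≃ₐ[K] Sep K => τ t₁) ⁻¹' {σ t₁} ∩
      (fun τ : Sep K ≃ₐ[K] Sep K => τ t₂) ⁻¹' {σ t₂} ∩
      (fun τ : Sep K ≃ₐ[K] Sep K => τ t₃) ⁻¹' {σ t₃}) ∩
      ((fun τ : Sep K ≃ₐ[K] Sep K => τ (β t₁)) ⁻¹' {σ (β t₁)} ∩
      (fun τ : Sep K ≃ₐ[K] Sep K => τ (β t₂)) ⁻¹' {σ (β t₂)} ∩
      (fun τ : Sep K ≃ₐ[K] Sep K => τ (β t₃)) ⁻¹' {σ (β t₃)}), ?_, ?_, ?_⟩
    · exact ((((locConst_apply t₁).isOpen_fiber _).inter ((locConst_apply t₂).isOpen_fiber _)).inter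
        ((locConst_apply t₃).isOpen_fiber _)).inter
        ((((locConst_apply (β t₁)).isOpen_fiber _).inter
          ((locConst_apply (β t₂)).isOpen_fiber _)).inter
          ((locConst_apply (β t₃)).isOpen_fiber _))
    · exact ⟨⟨⟨rfl, rfl⟩, rfl⟩, ⟨⟨rfl, rfl⟩, rfl⟩⟩
    · rintro τ ⟨⟨⟨a1, a2⟩, a3⟩, ⟨⟨b1, b2⟩, b3⟩⟩
      simp only [Set.mem_preimage, Set.mem_singleton_iff] at a1 a2 a3 b1 b2 b3
      have key : ∀ t : Sep K, Rt A B t → τ t = σ t → τ (β t) = σ (β t) →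
          sg (f τ) (σ t) = sg (f σ) (σ t) := by
        intro t ht ha hb
        have e1 := (hβ t ht).2 τ
        have e2 := (hβ t ht).2 σ
        rw [ha, hb, e2] at e1
        exact (mul_right_cancel₀ (hβ (σ t) (rt_map' σ ht)).1 e1).symm
      apply ext_sg h6 hd n1 n2 n3 r1 r2 r3 (hf2 τ) (hf2 σ)
      intro s hs
      have hs' : Rt A B (σ⁻¹ s) := rt_map' σ⁻¹ hs
      have es : σ (σ⁻¹ s) = s := by
        rw [← AlgEquiv.mul_apply, mul_inv_cancel, AlgEquiv.one_apply]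
      have := key (σ⁻¹ s) hs' (by
        rcases rr _ hs' with h | h | h <;> rw [h] <;> assumption) (by
        rcases rr _ hs' with h | h | h <;> rw [h] <;> assumption)
      rwa [es] at this
  · intro σ τ
    apply ext_sg h6 hd n1 n2 n3 r1 r2 r3 (hf2 _)
    · rw [nsmul_add, hf2, two_act' _ (hf2 τ), add_zero]
    · intro s hs
      set t := (σ * τ)⁻¹ s with ht
      have hs' : Rt A B t := rt_map' (σ * τ)⁻¹ hs
      have es : σ (τ t) = s := by
        rw [ht, ← AlgEquiv.mul_apply, ← AlgEquiv.mul_apply, mul_inv_cancel, AlgEquiv.one_apply]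
      have hτ : Rt A B (τ t) := rt_map' τ hs'
      rw [G2 _ _ s (hf2 σ) (two_act' _ (hf2 τ)) hs]
      have e1 := (hβ t hs').2 (σ * τ)
      have e2 := (hβ t hs').2 τ
      have e3 := (hβ (τ t) hτ).2 σ
      rw [AlgEquiv.mul_apply, AlgEquiv.mul_apply, es, e2, map_mul, fix_sg, e3, es] at e1
      have e4 : sg (act (sW A B) (rs K σ) (f τ)) s = sg (f τ) (τ t) := by
        rw [← es]; exact sg_act' h4 σ (f τ) (τ t)
      rw [e4]
      apply mul_right_cancel₀ (hβ s hs).1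
      rw [← e1]; ring

theorem coc : Pool.Agent.H62.PR.S_COC := by
  intro K _ A B h6 hd hirr h ⟨L, _, _, t, ht, hL, hne, c, hc⟩
  obtain ⟨t₁, t₂, t₃, n1, n2, n3, r1, r2, r3, rr⟩ := exists_roots h6 hirr
  obtain ⟨-, G2, G3, G4⟩ := h3 K (Sep K) A B h6 hd t₁ t₂ t₃ r1 r2 r3 n1 n2 n3
  -- the values are not zero
  have hval : ∀ s : Sep K, Rt A B s → aeval s h ≠ 0 := by
    intro s hs h0
    apply hne
    have hdvd : X ^ 3 + C A * X + C B ∣ h := by
      rw [← minpoly_eq hirr hs]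
      exact minpoly.dvd K s h0
    obtain ⟨q, hq⟩ := hdvd
    rw [hq, map_mul, (rt_iff t).1 ht, zero_mul]
  -- square roots with the right product
  choose b hb using fun s : Sep K => exists_sqrt h6 (aeval s h)
  have hn := norm_poly h6 hirr ht hL n1 n2 n3 r1 r2 r3 h
  rw [hc, map_mul, ← hb t₁, ← hb t₂, ← hb t₃] at hn
  have hpm : b t₁ * b t₂ * b t₃ = algebraMap K (Sep K) c ∨
      b t₁ * b t₂ * b t₃ = - algebraMap K (Sep K) c := by
    apply sq_eq_sq_iff_eq_or_eq_neg.1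
    linear_combination -hn
  obtain ⟨β, hβ2, hβc⟩ : ∃ β : Sep K → Sep K, (∀ s, β s ^ 2 = aeval s h) ∧
      β t₁ * β t₂ * β t₃ = algebraMap K (Sep K) c := by
    rcases hpm with hp | hp
    · exact ⟨b, hb, hp⟩
    · refine ⟨fun s => if s = t₁ then - b s else b s, fun s => ?_, ?_⟩
      · by_cases h' : s = t₁
        · simp only [h', if_true]; rw [neg_sq, hb]
        · simp only [h', if_false]; exact hb s
      · simp only [if_true, if_neg (Ne.symm n1), if_neg (Ne.symm n2)]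
        linear_combination -hp
  have hβne : ∀ s : Sep K, Rt A B s → β s ≠ 0 := by
    intro s hs h0
    apply hval s hs
    rw [← hβ2 s, h0]; ring
  -- the signs
  have hsq : ∀ (σ : Sep K ≃ₐ[K] Sep K) (s : Sep K), Rt A B s →
      (σ (β (σ⁻¹ s)) / β s = 1 ∨ σ (β (σ⁻¹ s)) / β s = -1) := by
    intro σ s hs
    rw [← mul_self_eq_one_iff, ← pow_two, div_pow, ← map_pow, hβ2, hβ2]
    have e : σ (aeval (σ⁻¹ s) h) = aeval s h := by
      have e1 : aeval (σ (σ⁻¹ s)) h = σ (aeval (σ⁻¹ s) h) := aeval_algHom_apply σ.toAlgHom _ h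
      rw [← e1, ← AlgEquiv.mul_apply, mul_inv_cancel, AlgEquiv.one_apply]
    rw [e, div_self (hval s hs)]
  have hprod : ∀ σ : Sep K ≃ₐ[K] Sep K, (σ (β (σ⁻¹ t₁)) / β t₁) * (σ (β (σ⁻¹ t₂)) / β t₂) *
      (σ (β (σ⁻¹ t₃)) / β t₃) = 1 := by
    intro σ
    have e1 := prod_perm n1 n2 n3 r1 r2 r3 σ⁻¹ (fun s => σ (β s))
    have e2 : σ (β t₁) * σ (β t₂) * σ (β t₃) = β t₁ * β t₂ * β t₃ := by
      rw [← map_mul, ← map_mul, hβc, AlgEquiv.commutes]
    have e3 : σ (β (σ⁻¹ t₁)) * σ (β (σ⁻¹ t₂)) * σ (β (σ⁻¹ t₃)) = β t₁ * β t₂ * β t₃ := by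
      rw [← e2, ← e1]
    have z1 := hβne _ r1
    have z2 := hβne _ r2
    have z3 := hβne _ r3
    rw [div_mul_div_comm, div_mul_div_comm, e3, div_self (mul_ne_zero (mul_ne_zero z1 z2) z3)]
  have hex : ∀ σ : Sep K ≃ₐ[K] Sep K, ∃ T : Pt (sW A B) (Sep K), (2 : ℕ) • T = 0 ∧
      ∀ s, Rt A B s → sg T s = σ (β (σ⁻¹ s)) / β s := by
    intro σ
    obtain ⟨T, hT, s1, s2, s3⟩ := G4 _ _ _ (hsq σ _ r1) (hsq σ _ r2) (hsq σ _ r3) (hprod σ)
    refine ⟨T, hT, fun s hs => ?_⟩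
    rcases rr s hs with rfl | rfl | rfl <;> assumption
  choose f hf2 hfs using hex
  have hbeta : IsBeta A B f β := by
    intro s hs
    refine ⟨hβne s hs, fun σ => ?_⟩
    have hs' : Rt A B (σ s) := rt_map' σ hs
    rw [hfs σ (σ s) hs', ← AlgEquiv.mul_apply, inv_mul_cancel, AlgEquiv.one_apply,
      div_mul_cancel₀ _ (hβne _ hs')]
  exact ⟨f, β, isCoc_of_beta h6 hd hirr hf2 hbeta, hf2, hbeta, fun s hs => (hβ2 s).symm⟩

theorem eqv : Pool.Agent.H62.PR.S_EQV := by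
  intro K _ A B h6 hd hirr f f' β β' h h' hf hf2 hβ hh hf' hf2' hβ' hh' L _ _ t ht hL
  obtain ⟨t₁, t₂, t₃, n1, n2, n3, r1, r2, r3, rr⟩ := exists_roots h6 hirr
  obtain ⟨-, G2, -, -⟩ := h3 K (Sep K) A B h6 hd t₁ t₂ t₃ r1 r2 r3 n1 n2 n3
  have hneg : ∀ σ, - f' σ = f' σ := by
    intro σ
    exact (eq_neg_of_add_eq_zero_left (by rw [← two_nsmul]; exact hf2' σ)).symm
  constructor
  · rintro ⟨T, hT, hfT⟩
    have hTn : -T = T := (eq_neg_of_add_eq_zero_left (by rw [← two_nsmul]; exact hT)).symm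
    have hsg : ∀ (σ : Sep K ≃ₐ[K] Sep K) (s : Sep K), Rt A B s →
        sg (f σ) (σ s) * sg (f' σ) (σ s) = sg T s * sg T (σ s) := by
      intro σ s hs
      have hs' : Rt A B (σ s) := rt_map' σ hs
      rw [← G2 _ _ _ (hf2 σ) (hf2' σ) hs']
      have e := hfT σ
      rw [sub_eq_add_neg, hneg, sub_eq_add_neg, hTn] at e
      rw [e, G2 _ _ _ (two_act' _ hT) hT hs', sg_act' h4]
    have hγ : ∀ (σ : Sep K ≃ₐ[K] Sep K) (s : Sep K), Rt A B s →
        σ (β s * β' s * sg T s) = β (σ s) * β' (σ s) * sg T (σ s) := by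
      intro σ s hs
      rw [map_mul, map_mul, fix_sg, (hβ s hs).2 σ, (hβ' s hs).2 σ]
      have e := hsg σ s hs
      have q := sg_mul_self T s
      linear_combination (β (σ s) * β' (σ s) * sg T s) * e + (β (σ s) * β' (σ s) * sg T (σ s)) * q
    obtain ⟨g, hg⟩ := exists_poly (t := t₁) (x := β t₁ * β' t₁ * sg T t₁) (fun σ hσ => by
      rw [hγ σ t₁ r1, hσ])
    have hdvd : X ^ 3 + C A * X + C B ∣ h * h' - g ^ 2 := by
      rw [← minpoly_eq hirr r1]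
      refine minpoly.dvd K t₁ ?_
      rw [map_sub, map_pow, map_mul, hg, hh _ r1, hh' _ r1]
      have q := sg_mul_self T t₁
      linear_combination (-(β t₁ ^ 2 * β' t₁ ^ 2)) * q
    obtain ⟨q, hq⟩ := hdvd
    refine ⟨aeval t g, ?_⟩
    have e : aeval t (h * h' - g ^ 2) = 0 := by rw [hq, map_mul, (rt_iff t).1 ht, zero_mul]
    rw [map_sub, map_pow, map_mul] at e
    linear_combination e
  · intro hsq
    have hcoc : IsCoc (sW A B) (fun σ => f σ + f' σ) := by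
      refine ⟨hf.lc.add hf'.lc, fun σ τ => ?_⟩
      show f (σ * τ) + f' (σ * τ) = f σ + f' σ + act (sW A B) (rs K σ) (f τ + f' τ)
      rw [hf.mul, hf'.mul, map_add]; abel
    have h2 : ∀ σ, (2 : ℕ) • (f σ + f' σ) = 0 := by
      intro σ; rw [nsmul_add, hf2, hf2', add_zero]
    have hb : IsBeta A B (fun σ => f σ + f' σ) (fun s => β s * β' s) := by
      intro s hs
      refine ⟨mul_ne_zero (hβ s hs).1 (hβ' s hs).1, fun σ => ?_⟩
      show σ (β s * β' s) = sg (f σ + f' σ) (σ s) * (β (σ s) * β' (σ s))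
      rw [G2 _ _ _ (hf2 σ) (hf2' σ) (rt_map' σ hs), map_mul, (hβ s hs).2 σ, (hβ' s hs).2 σ]
      ring
    obtain ⟨T, hT, hT'⟩ := gt h3 h4 K A B h6 hd hirr (fun σ => f σ + f' σ) hcoc h2
      (fun s => β s * β' s) (h * h') hb
      (fun s hs => by rw [map_mul, hh s hs, hh' s hs]; ring) L t ht hL (by rw [map_mul]; exact hsq)
    refine ⟨T, hT, fun σ => ?_⟩
    rw [sub_eq_add_neg, hneg]
    exact hT' σ

end

end Pool.Agent.H25.PR
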