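import Mathlib

/-!
# Project PR (helper62): square roots in the algebraic closure of `ℚ_[p]`

By helper25.
-/

set_option autoImplicit false
set_option linter.all false

open Polynomial

namespace Pool.Agent.H25.PR.Pad

variable {p : ℕ} [hp : Fact p.Prime]

theorem norm_gal (σ : PadicAlgCl p ≃ₐ[ℚ_[p]] PadicAlgCl p) (x : PadicAlgCl p) : ‖σ x‖ = ‖x‖ := by
  rw [← PadicAlgCl.spectralNorm_eq, ← PadicAlgCl.spectralNorm_eq]
  exact (spectralNorm_eq_of_equiv σ x).symm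

theorem norm_coe (x : ℚ_[p]) : ‖algebraMap ℚ_[p] (PadicAlgCl p) x‖ = ‖x‖ :=
  PadicAlgCl.norm_extends p x

theorem mem_range_of_fixed {x : PadicAlgCl p}
    (h : ∀ σ : PadicAlgCl p ≃ₐ[ℚ_[p]] PadicAlgCl p, σ x = x) :
    ∃ y : ℚ_[p], algebraMap ℚ_[p] (PadicAlgCl p) y = x :=
  (InfiniteGalois.mem_range_algebraMap_iff_fixed x).2 h

theorem poly_of_fixed {t x : PadicAlgCl p}
    (h : ∀ σ : PadicAlgCl p ≃ₐ[ℚ_[p]] PadicAlgCl p, σ t = t → σ x = x) :
    ∃ g : ℚ_[p][X], aeval t g = x := by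
  have hx : x ∈ IntermediateField.fixedField
      (IntermediateField.adjoin ℚ_[p] ({t} : Set (PadicAlgCl p))).fixingSubgroup := by
    intro σ
    have h1 := (IntermediateField.mem_fixingSubgroup_iff _ _).1 σ.2 t
      (IntermediateField.mem_adjoin_simple_self ℚ_[p] t)
    exact h σ.1 h1
  rw [InfiniteGalois.fixedField_fixingSubgroup] at hx
  have ht : IsAlgebraic ℚ_[p] t := Algebra.IsAlgebraic.isAlgebraic t
  rw [← IntermediateField.mem_toSubalgebra,
    IntermediateField.adjoin_simple_toSubalgebra_of_isAlgebraic ht,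
    Algebra.adjoin_singleton_eq_range_aeval] at hx
  exact hx

theorem norm_add_le (x y : PadicAlgCl p) : ‖x + y‖ ≤ max ‖x‖ ‖y‖ :=
  PadicAlgCl.isNonarchimedean p x y

theorem norm_sub_le (x y : PadicAlgCl p) : ‖x - y‖ ≤ max ‖x‖ ‖y‖ := by
  have := norm_add_le x (-y)
  rwa [norm_neg, ← sub_eq_add_neg] at this

theorem norm_eq_of_sub_lt {x y : PadicAlgCl p} (h : ‖x - y‖ < ‖x‖) : ‖y‖ = ‖x‖ := by
  apply le_antisymm
  · have := norm_sub_le x (x - y)
    rw [sub_sub_cancel] at this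
    exact this.trans (max_le le_rfl h.le)
  · by_contra hlt
    push Not at hlt
    have := norm_add_le (x - y) y
    rw [sub_add_cancel] at this
    exact absurd this (not_le.2 (max_lt h hlt))

theorem norm_le_one_of_int {x : PadicAlgCl p} (h : IsIntegral ℤ x) : ‖x‖ ≤ 1 := by
  have hv : Valued.v.Integers (Valued.v : Valuation (PadicAlgCl p) NNReal).integer :=
    Valuation.integer.integers _
  have h1 : IsIntegral (Valued.v : Valuation (PadicAlgCl p) NNReal).integer x := h.tower_top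
  have h2 := hv.mem_of_integral h1
  have h3 : (Valued.v : Valuation (PadicAlgCl p) NNReal) x ≤ 1 := h2
  rw [PadicAlgCl.valuation_def] at h3
  exact_mod_cast h3

theorem norm_int_lt (k : ℤ) : ‖(k : ℚ_[p])‖ < 1 ↔ (p : ℤ) ∣ k := by
  have h := PadicInt.norm_int_lt_one_iff_dvd (p := p) k
  rwa [PadicInt.norm_def, PadicInt.coe_intCast] at h

theorem norm_two (hp2 : p ≠ 2) : ‖(2 : PadicAlgCl p)‖ = 1 := by
  have h1 : (2 : PadicAlgCl p) = algebraMap ℚ_[p] (PadicAlgCl p) 2 := by rw [map_ofNat]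
  rw [h1, norm_coe]
  have h2 : ‖((2 : ℤ) : ℚ_[p])‖ = 1 := by
    refine le_antisymm (Padic.norm_int_le_one 2) (not_lt.1 fun h => ?_)
    have h3 := (norm_int_lt 2).1 h
    have h4 : p ∣ 2 := by exact_mod_cast h3
    exact hp2 ((Nat.prime_dvd_prime_iff_eq hp.out Nat.prime_two).1 h4)
  simpa using h2

/-- The square root near `s`. -/
theorem sqrt_near (hp2 : p ≠ 2) {u s : PadicAlgCl p} (h : ‖u - s ^ 2‖ < ‖u‖) :
    ∃ g : PadicAlgCl p, g ^ 2 = u ∧ ‖g - s‖ < ‖s‖ := by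
  have hs : ‖s ^ 2‖ = ‖u‖ := norm_eq_of_sub_lt h
  rw [norm_pow] at hs
  obtain ⟨g, hg⟩ := IsAlgClosed.exists_pow_nat_eq u (n := 2) (by norm_num)
  have hg2 : ‖g‖ ^ 2 = ‖s‖ ^ 2 := by rw [← norm_pow, hg, hs]
  have hgs : ‖g‖ = ‖s‖ := by
    have := (sq_eq_sq₀ (norm_nonneg g) (norm_nonneg s)).1 hg2
    exact this
  have hprod : ‖g - s‖ * ‖g + s‖ < ‖s‖ * ‖s‖ := by
    rw [← norm_mul]
    have e : (g - s) * (g + s) = u - s ^ 2 := by rw [← hg]; ring
    rw [e, ← pow_two, hs]; exact h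
  by_cases hlt : ‖g - s‖ < ‖s‖
  · exact ⟨g, hg, hlt⟩
  · refine ⟨-g, by rw [neg_sq, hg], ?_⟩
    push Not at hlt
    have e : -g - s = -(g + s) := by ring
    rw [e, norm_neg]
    by_contra hge
    push Not at hge
    have := mul_le_mul hlt hge (norm_nonneg _) (norm_nonneg _)
    exact absurd hprod (not_lt.2 this)

theorem sqrt_unique (hp2 : p ≠ 2) {g g' s : PadicAlgCl p} (h : g ^ 2 = g' ^ 2)
    (h1 : ‖g - s‖ < ‖s‖) (h2 : ‖g' - s‖ < ‖s‖) : g = g' := by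
  rcases sq_eq_sq_iff_eq_or_eq_neg.1 h with h3 | h3
  · exact h3
  · exfalso
    rw [h3] at h1
    have e : (2 : PadicAlgCl p) * s = -((-g' - s) + (g' - s)) := by ring
    have h4 := norm_add_le (-g' - s) (g' - s)
    have h5 : ‖(2 : PadicAlgCl p) * s‖ = ‖s‖ := by rw [norm_mul, norm_two hp2, one_mul]
    rw [e, norm_neg] at h5
    rw [h5] at h4
    exact absurd h4 (not_le.2 (max_lt h1 h2))

/-- The square root near a point of `ℚ_p(t)` is in `ℚ_p(t)`. -/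
theorem sqrt_poly (hp2 : p ≠ 2) {t u s : PadicAlgCl p}
    (hu : ∀ σ : PadicAlgCl p ≃ₐ[ℚ_[p]] PadicAlgCl p, σ t = t → σ u = u)
    (hs : ∀ σ : PadicAlgCl p ≃ₐ[ℚ_[p]] PadicAlgCl p, σ t = t → σ s = s)
    (h : ‖u - s ^ 2‖ < ‖u‖) : ∃ g : ℚ_[p][X], (aeval t g) ^ 2 = u := by
  obtain ⟨g, hg, hgs⟩ := sqrt_near hp2 h
  obtain ⟨G, hG⟩ := poly_of_fixed (t := t) (x := g) (fun σ hσ => by
    refine sqrt_unique hp2 (s := s) ?_ ?_ hgs
    · rw [← map_pow, hg, hu σ hσ]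
    · have e : σ g - s = σ (g - s) := by rw [map_sub, hs σ hσ]
      rw [e, norm_gal]; exact hgs)
  exact ⟨G, by rw [hG, hg]⟩

theorem aeval_fixed {t : PadicAlgCl p} (G : ℚ_[p][X])
    (σ : PadicAlgCl p ≃ₐ[ℚ_[p]] PadicAlgCl p) : σ (aeval t G) = aeval (σ t) G :=
  (aeval_algHom_apply σ.toAlgHom t G).symm

/-- Squares modulo `(X - t₁) (X ^ 2 + u X + v)`, the quadratic factor irreducible. -/
theorem sq_lemma (hp2 : p ≠ 2) (t₁ u v : ℚ_[p]) (hirr : ∀ z : ℚ_[p], z ^ 2 + u * z + v ≠ 0)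
    (t₂ t₃ : PadicAlgCl p) (h23 : t₂ + t₃ = - algebraMap ℚ_[p] (PadicAlgCl p) u)
    (h23' : t₂ * t₃ = algebraMap ℚ_[p] (PadicAlgCl p) v) (H : ℚ_[p][X]) (c : ℚ_[p])
    (hH : aeval t₂ H ≠ 0) (hH3 : aeval t₃ H ≠ 0)
    (hc : algebraMap ℚ_[p] (PadicAlgCl p) (H.eval t₁) * aeval t₂ H * aeval t₃ H =
      (algebraMap ℚ_[p] (PadicAlgCl p) c) ^ 2)
    (s : PadicAlgCl p)
    (hs : ∀ σ : PadicAlgCl p ≃ₐ[ℚ_[p]] PadicAlgCl p, σ t₂ = t₂ → σ s = s)
    (h : ‖aeval t₂ H - s ^ 2‖ < ‖aeval t₂ H‖) :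
    ∃ g : ℚ_[p][X], (X - C t₁) * (X ^ 2 + C u * X + C v) ∣ H - g ^ 2 := by
  set q : ℚ_[p][X] := X ^ 2 + C u * X + C v with hq
  have hqdeg : q.natDegree = 2 := by rw [hq]; compute_degree!
  have hqm : q.Monic := by rw [hq]; monicity!
  have hqirr : Irreducible q := by
    rw [Polynomial.irreducible_iff_roots_eq_zero_of_degree_le_three (by omega) (by omega)]
    rw [Multiset.eq_zero_iff_forall_notMem]
    intro z hz
    have := (mem_roots'.1 hz).2
    rw [IsRoot.def, hq] at this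
    simp at this
    exact hirr z this
  have ht2 : aeval t₂ q = 0 := by
    rw [hq]
    simp only [map_add, map_mul, map_pow, aeval_X, aeval_C]
    rw [← h23']
    have e : algebraMap ℚ_[p] (PadicAlgCl p) u = -(t₂ + t₃) := by rw [h23, neg_neg]
    rw [e]; ring
  have hmin : minpoly ℚ_[p] t₂ = q := (minpoly.eq_of_irreducible_of_monic hqirr ht2 hqm).symm
  have ht3 : aeval t₃ q = 0 := by
    rw [hq]
    simp only [map_add, map_mul, map_pow, aeval_X, aeval_C]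
    rw [← h23']
    have e : algebraMap ℚ_[p] (PadicAlgCl p) u = -(t₂ + t₃) := by rw [h23, neg_neg]
    rw [e]; ring
  have hmin3 : minpoly ℚ_[p] t₃ = q := (minpoly.eq_of_irreducible_of_monic hqirr ht3 hqm).symm
  obtain ⟨σ₀, hσ₀⟩ : ∃ σ : PadicAlgCl p ≃ₐ[ℚ_[p]] PadicAlgCl p, σ t₂ = t₃ := by
    have h : IsConjRoot ℚ_[p] t₃ t₂ := by rw [isConjRoot_def, hmin3, hmin]
    exact isConjRoot_iff_exists_algEquiv.1 h
  obtain ⟨g₂, hg₂⟩ := sqrt_poly hp2 (t := t₂) (u := aeval t₂ H) (s := s)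
    (fun σ hσ => by rw [aeval_fixed, hσ]) hs h
  have hg₃ : (aeval t₃ g₂) ^ 2 = aeval t₃ H := by
    rw [← hσ₀, ← aeval_fixed, ← aeval_fixed, ← map_pow, hg₂]
  have hn2 : aeval t₂ g₂ ≠ 0 := by
    intro h0; rw [h0] at hg₂; exact hH (by rw [← hg₂]; ring)
  have hn3 : aeval t₃ g₂ ≠ 0 := by
    intro h0; rw [h0] at hg₃; exact hH3 (by rw [← hg₃]; ring)
  -- the norm
  obtain ⟨n, hn⟩ := mem_range_of_fixed (x := aeval t₂ g₂ * aeval t₃ g₂) (fun σ => by
    rw [map_mul, aeval_fixed, aeval_fixed]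
    have hroot : ∀ y : PadicAlgCl p, aeval y q = 0 → y = t₂ ∨ y = t₃ := by
      intro y hy
      rw [hq] at hy
      simp only [map_add, map_mul, map_pow, aeval_X, aeval_C] at hy
      have e : algebraMap ℚ_[p] (PadicAlgCl p) u = -(t₂ + t₃) := by rw [h23, neg_neg]
      rw [e, ← h23'] at hy
      have e2 : (y - t₂) * (y - t₃) = 0 := by linear_combination hy
      rcases mul_eq_zero.1 e2 with h | h
      · left; exact sub_eq_zero.1 h
      · right; exact sub_eq_zero.1 h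
    have hsum : σ t₂ + σ t₃ = t₂ + t₃ := by
      rw [← map_add, h23, map_neg, AlgEquiv.commutes]
    rcases hroot (σ t₂) (by rw [← aeval_fixed, ht2, map_zero]) with h | h
    · have h' : σ t₃ = t₃ := by rw [h] at hsum; exact add_left_cancel hsum
      rw [h, h']
    · have h' : σ t₃ = t₂ := by
        rw [h] at hsum
        have : t₃ + σ t₃ = t₃ + t₂ := by rw [hsum, add_comm]
        exact add_left_cancel this
      rw [h, h', mul_comm])
  have hnn : n ≠ 0 := by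
    rintro rfl
    rw [map_zero] at hn
    exact mul_ne_zero hn2 hn3 hn.symm
  have hHt : H.eval t₁ = (c / n) ^ 2 := by
    apply (algebraMap ℚ_[p] (PadicAlgCl p)).injective
    rw [← hg₂, ← hg₃] at hc
    rw [map_pow, map_div₀, hn, div_pow, eq_div_iff (pow_ne_zero 2 (mul_ne_zero hn2 hn3)), ← hc]
    ring
  -- interpolation
  have hq1 : q.eval t₁ ≠ 0 := by
    rw [hq]; simp only [eval_add, eval_mul, eval_pow, eval_X, eval_C]; exact hirr t₁
  refine ⟨g₂ + C ((c / n - g₂.eval t₁) / q.eval t₁) * q, ?_⟩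
  apply IsCoprime.mul_dvd
  · apply (Irreducible.coprime_iff_not_dvd (irreducible_X_sub_C t₁)).2
    rw [dvd_iff_isRoot]
    exact hq1
  · rw [dvd_iff_isRoot, IsRoot.def]
    simp only [eval_sub, eval_pow, eval_add, eval_mul, eval_C]
    rw [hHt, div_mul_cancel₀ _ hq1]; ring
  · have e0 : aeval t₂ (H - (g₂ + C ((c / n - g₂.eval t₁) / q.eval t₁) * q) ^ 2) = 0 := by
      rw [map_sub, map_pow, map_add, map_mul, ht2, mul_zero, add_zero, hg₂, sub_self]
    have e1 := minpoly.dvd _ _ e0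
    rwa [hmin] at e1

end Pool.Agent.H25.PR.Pad
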