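import Pool.Agent.H62.PR.Stm
import Pool.Agent.H25.PR.Pad

/-!
# Project PR (helper62), part DP: the primes dividing the twist

By helper25.
-/

set_option autoImplicit false
set_option linter.all false

open Polynomial IsDedekindDomain WeierstrassCurve WeierstrassCurve.Affine NumberField
open Pool.Agent.TH115.GD
open scoped Classical

namespace Pool.Agent.H25.PR.Dp

open Pool.Agent.N874.PP (Tup chA chB gq tau Two Ev Sq1 U0 sW IsBeta Rt)
open Pool.Agent.N874.PM (PLoc Lies SelR ShaR)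
open Pool.Agent.N922.PQ Pool.Agent.H25.PR.Pad

/-! ### The place of an embedding -/

section emb

variable {L O : Type} [Field L] [NumberField L] [CommRing O] [IsDedekindDomain O] [Algebra O L]
  [IsFractionRing O L] [IsIntegralClosure O ℤ L] {p : ℕ} [hp : Fact p.Prime]
  (φ : L →+* PadicAlgCl p)

theorem int_le (x : O) : ‖φ (algebraMap O L x)‖ ≤ 1 := by
  apply norm_le_one_of_int
  have h2 : IsIntegral ℤ (algebraMap O L x) :=
    (IsIntegralClosure.isIntegral_iff (A := O)).2 ⟨x, rfl⟩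
  exact h2.map φ.toIntAlgHom

variable (O) in
/-- The prime ideal. -/
noncomputable def pI : Ideal O where
  carrier := {x | ‖φ (algebraMap O L x)‖ < 1}
  add_mem' := by
    intro x y hx hy
    show ‖φ (algebraMap O L (x + y))‖ < 1
    rw [map_add, map_add]
    exact (Pad.norm_add_le _ _).trans_lt (max_lt hx hy)
  zero_mem' := by
    show ‖φ (algebraMap O L 0)‖ < 1
    rw [map_zero, map_zero, norm_zero]; norm_num
  smul_mem' := by
    intro c x hx
    show ‖φ (algebraMap O L (c • x))‖ < 1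
    rw [smul_eq_mul, map_mul, map_mul, norm_mul]
    exact mul_lt_one_of_nonneg_of_lt_one_right (int_le φ c) (norm_nonneg _) hx

theorem mem_pI (x : O) : x ∈ pI O φ ↔ ‖φ (algebraMap O L x)‖ < 1 := Iff.rfl

theorem norm_natCast_p : ‖((p : ℕ) : PadicAlgCl p)‖ < 1 := by
  have e : ((p : ℕ) : PadicAlgCl p) = algebraMap ℚ_[p] (PadicAlgCl p) (p : ℚ_[p]) := by
    rw [map_natCast]
  rw [e, norm_coe]
  exact Padic.norm_p_lt_one

theorem p_mem : (p : O) ∈ pI O φ := by
  rw [mem_pI, map_natCast, map_natCast]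
  exact norm_natCast_p

variable (O) in
/-- The place. -/
noncomputable def pl : HeightOneSpectrum O where
  asIdeal := pI O φ
  isPrime := by
    refine ⟨?_, ?_⟩
    · intro h
      have h1 : (1 : O) ∈ pI O φ := by rw [h]; trivial
      rw [mem_pI, map_one, map_one, norm_one] at h1
      exact lt_irrefl _ h1
    · intro x y hxy
      rw [mem_pI, map_mul, map_mul, norm_mul] at hxy
      by_contra hcon
      push Not at hcon
      rw [mem_pI, mem_pI] at hcon
      push Not at hcon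
      have := mul_le_mul hcon.1 hcon.2 zero_le_one (norm_nonneg _)
      rw [one_mul] at this
      exact absurd hxy (not_lt.2 this)
  ne_bot := by
    intro h0
    have h1 := p_mem (O := O) φ
    rw [h0, Ideal.mem_bot] at h1
    have h2 := congrArg (algebraMap O L) h1
    rw [map_natCast, map_zero] at h2
    exact hp.out.ne_zero (by exact_mod_cast h2)

theorem lt_of (x : L) (hx : (pl O φ).valuation L x < 1) : ‖φ x‖ < 1 := by
  obtain ⟨n, d, hnd⟩ := (pl O φ).exists_primeCompl_mul_eq_of_integer x hx.le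
  have hd : ‖φ (algebraMap O L d)‖ = 1 := by
    refine le_antisymm (int_le φ _) (not_lt.1 fun h => ?_)
    exact d.2 ((mem_pI φ _).2 h)
  have h1 := congrArg (fun y => ‖φ y‖) hnd
  simp only [map_mul, norm_mul, hd, mul_one] at h1
  rw [h1, ← mem_pI]
  have h2 : (pl O φ).valuation L (algebraMap O L n) < 1 := by
    rw [← hnd, map_mul]
    exact mul_lt_one_of_lt_of_le hx ((pl O φ).valuation_le_one _)
  exact ((pl O φ).valuation_lt_one_iff_mem n).1 h2

theorem sq1 (x : L) (hx : x ≠ 0) (h : Sq1 (pl O φ) x) : ∃ s : L, ‖φ x - φ s ^ 2‖ < ‖φ x‖ := by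
  obtain ⟨s, hs⟩ := h
  refine ⟨s, ?_⟩
  have h1 : (pl O φ).valuation L ((x - s ^ 2) / x) < 1 := by
    rw [map_div₀]
    exact (div_lt_one₀ (zero_lt_iff.2 ((Valuation.ne_zero_iff _).2 hx))).2 hs
  have h2 := lt_of φ _ h1
  rw [map_div₀, norm_div, div_lt_one (norm_pos_iff.2 (by rwa [Ne, map_eq_zero]))] at h2
  rwa [map_sub, map_pow] at h2

end emb

section cub

variable {L : Type} [Field L] [NumberField L] {a b : ℤ} {θ : L}

theorem gen_poly (h : IsCub a b θ) (x : L) : ∃ g : ℚ[X], aeval θ g = x := by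
  obtain ⟨r, s, t, rfl⟩ := h.gen x
  refine ⟨C r + C s * X + C t * X ^ 2, ?_⟩
  simp

theorem minpoly_cub (h : IsCub a b θ) : minpoly ℚ θ = X ^ 3 + C (a : ℚ) * X + C (b : ℚ) := by
  have hm : (X ^ 3 + C (a : ℚ) * X + C (b : ℚ) : ℚ[X]).Monic := by monicity!
  have hd : (X ^ 3 + C (a : ℚ) * X + C (b : ℚ) : ℚ[X]).natDegree = 3 := by compute_degree!
  have h0 : aeval θ (X ^ 3 + C (a : ℚ) * X + C (b : ℚ) : ℚ[X]) = 0 := by
    have := h.root
    simp only [map_add, map_mul, map_pow, aeval_X, aeval_C, map_intCast]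
    exact this
  have hint : IsIntegral ℚ θ := Algebra.IsIntegral.isIntegral θ
  have hdeg : (minpoly ℚ θ).natDegree = 3 := by
    rw [← IntermediateField.adjoin.finrank hint]
    have htop : IntermediateField.adjoin ℚ ({θ} : Set L) = ⊤ := by
      rw [eq_top_iff]
      intro x _
      obtain ⟨g, rfl⟩ := gen_poly h x
      have := IntermediateField.mem_adjoin_simple_self ℚ θ
      exact (Algebra.adjoin_le (S := (IntermediateField.adjoin ℚ ({θ} : Set L)).toSubalgebra)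
        (Set.singleton_subset_iff.2 this)) (Polynomial.aeval_mem_adjoin_singleton ℚ θ)
    rw [htop, IntermediateField.finrank_top', h.rank]
  exact (Polynomial.eq_of_monic_of_dvd_of_natDegree_le (minpoly.monic hint) hm
    (minpoly.dvd _ _ h0) (by rw [hd, hdeg])).symm

/-- Embeddings and norms. -/
theorem embeddings {Ω : Type} [Field Ω] [CharZero Ω] [IsAlgClosed Ω] (h : IsCub a b θ)
    {t₁ t₂ t₃ : Ω} (n1 : t₁ ≠ t₂) (n2 : t₁ ≠ t₃) (n3 : t₂ ≠ t₃)
    (hr : ∀ t : Ω, t ^ 3 + a * t + b = (t - t₁) * (t - t₂) * (t - t₃)) :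
    (∃ φ : L →ₐ[ℚ] Ω, φ θ = t₂) ∧ ∀ g : ℚ[X], algebraMap ℚ Ω (Algebra.norm ℚ (aeval θ g)) =
      aeval t₁ g * aeval t₂ g * aeval t₃ g := by
  have hext : ∀ σ τ : L →ₐ[ℚ] Ω, σ θ = τ θ → σ = τ := by
    intro σ τ h'
    apply AlgHom.ext
    intro x
    obtain ⟨q, rfl⟩ := gen_poly h x
    rw [← aeval_algHom_apply, ← aeval_algHom_apply, h']
  have himg : (Finset.univ : Finset (L →ₐ[ℚ] Ω)).image (fun σ => σ θ) = {t₁, t₂, t₃} := by
    apply Finset.eq_of_subset_of_card_le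
    · intro y hy
      rw [Finset.mem_image] at hy
      obtain ⟨σ, -, rfl⟩ := hy
      have e : (σ θ - t₁) * (σ θ - t₂) * (σ θ - t₃) = 0 := by
        rw [← hr]
        have := congrArg σ h.root
        rw [map_zero, map_add, map_add, map_mul, map_pow, map_intCast, map_intCast] at this
        exact this
      simp only [Finset.mem_insert, Finset.mem_singleton]
      rcases mul_eq_zero.1 e with e | e
      · rcases mul_eq_zero.1 e with e | e
        · left; exact sub_eq_zero.1 e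
        · right; left; exact sub_eq_zero.1 e
      · right; right; exact sub_eq_zero.1 e
    · rw [Finset.card_image_of_injective _ (fun σ τ h => hext σ τ h), Finset.card_univ,
        AlgHom.card, h.rank]
      exact Finset.card_le_three
  constructor
  · have : t₂ ∈ (Finset.univ : Finset (L →ₐ[ℚ] Ω)).image (fun σ => σ θ) := by
      rw [himg]; simp
    rw [Finset.mem_image] at this
    obtain ⟨φ, -, hφ⟩ := this
    exact ⟨φ, hφ⟩
  · intro g
    rw [Algebra.norm_eq_prod_embeddings]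
    have e2 : ∀ σ : L →ₐ[ℚ] Ω, σ (aeval θ g) =
        (fun y : Ω => aeval y g) ((fun σ : L →ₐ[ℚ] Ω => σ θ) σ) :=
      fun σ => (aeval_algHom_apply σ θ g).symm
    rw [Finset.prod_congr rfl (fun σ _ => e2 σ),
      ← Finset.prod_image (f := fun y : Ω => aeval y g) (g := fun σ : L →ₐ[ℚ] Ω => σ θ)
        (fun σ _ τ _ h => hext σ τ h), himg]
    rw [Finset.prod_insert (by simp [n1, n2]), Finset.prod_insert (by simp [n3]),
      Finset.prod_singleton, mul_assoc]

end cub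


section main

variable {p : ℕ} [hp : Fact p.Prime]

theorem norm_intCast (k : ℤ) : ‖(k : PadicAlgCl p)‖ < 1 ↔ (p : ℤ) ∣ k := by
  have e : (k : PadicAlgCl p) = algebraMap ℚ_[p] (PadicAlgCl p) (k : ℚ_[p]) := by rw [map_intCast]
  rw [e, norm_coe, norm_int_lt]

theorem norm_intCast_le (k : ℤ) : ‖(k : PadicAlgCl p)‖ ≤ 1 := by
  have e : (k : PadicAlgCl p) = algebraMap ℚ_[p] (PadicAlgCl p) (k : ℚ_[p]) := by rw [map_intCast]
  rw [e, norm_coe]
  exact Padic.norm_int_le_one k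

theorem norm_intCast_eq {k : ℤ} (h : ¬ (p : ℤ) ∣ k) : ‖(k : PadicAlgCl p)‖ = 1 :=
  le_antisymm (norm_intCast_le k) (not_lt.1 fun h' => h ((norm_intCast k).1 h'))

/-- The zero of the cubic polynomial which is divisible by `p`. -/
theorem exists_rho (hp2 : p ≠ 2) (a b : ℤ) (hb : (p : ℤ) ∣ b) (ha : ∀ z : ℤ, ¬ (p : ℤ) ∣ z ^ 2 + a) :
    ∃ ρ : ℚ_[p], ‖ρ‖ < 1 ∧ ρ ^ 3 + a * ρ + b = 0 := by
  have ha0 : ¬ (p : ℤ) ∣ a := by
    intro h; exact ha 0 (by simpa using h)
  set F : ℤ_[p][X] := X ^ 3 + C (a : ℤ_[p]) * X + C (b : ℤ_[p]) with hF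
  have h0 : aeval (0 : ℤ_[p]) F = (b : ℤ_[p]) := by rw [hF]; simp
  have h1 : aeval (0 : ℤ_[p]) F.derivative = (a : ℤ_[p]) := by rw [hF]; simp
  have hn1 : ‖(a : ℤ_[p])‖ = 1 := by
    refine le_antisymm (PadicInt.norm_le_one _) (not_lt.1 fun h => ?_)
    exact ha0 ((PadicInt.norm_int_lt_one_iff_dvd a).1 h)
  have hn0 : ‖(b : ℤ_[p])‖ < 1 := (PadicInt.norm_int_lt_one_iff_dvd b).2 hb
  obtain ⟨z, hz, hz0, -, -⟩ := hensels_lemma (F := F) (a := (0 : ℤ_[p]))
    (by rw [h0, h1, hn1]; simpa using hn0)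
  rw [h1, hn1, sub_zero] at hz0
  refine ⟨(z : ℚ_[p]), hz0, ?_⟩
  rw [hF] at hz
  simp only [map_add, map_mul, map_pow, aeval_X, aeval_C, Algebra.algebraMap_self, RingHom.id_apply] at hz
  have := congrArg (fun y : ℤ_[p] => (y : ℚ_[p])) hz
  push_cast at this
  exact this

theorem quad_irr (a : ℤ) (ha : ∀ z : ℤ, ¬ (p : ℤ) ∣ z ^ 2 + a) (ρ : ℚ_[p]) (hρ : ‖ρ‖ < 1)
    (w : ℚ_[p]) : w ^ 2 + ρ * w + (a + ρ ^ 2) ≠ 0 := by
  intro h
  have hw : ‖w‖ ≤ 1 := by
    by_contra hcon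
    push Not at hcon
    have e : w ^ 2 = -(ρ * w + (a + ρ ^ 2)) := by linear_combination h
    have h1 : ‖w ^ 2‖ ≤ ‖w‖ := by
      rw [e, norm_neg]
      refine (Padic.nonarchimedean _ _).trans (max_le ?_ ?_)
      · rw [norm_mul]
        exact mul_le_of_le_one_left (norm_nonneg _) hρ.le
      · refine (Padic.nonarchimedean _ _).trans (max_le ?_ ?_)
        · exact (Padic.norm_int_le_one a).trans hcon.le
        · rw [norm_pow]
          exact (pow_le_one₀ (norm_nonneg _) hρ.le).trans hcon.le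
    rw [norm_pow, pow_two] at h1
    have h2 : ‖w‖ * 1 < ‖w‖ * ‖w‖ := mul_lt_mul_of_pos_left hcon (by linarith)
    rw [mul_one] at h2
    exact absurd h1 (not_le.2 h2)
  -- an integer near `w`
  obtain ⟨z, hz⟩ : ∃ z : ℤ, ‖w - (z : ℚ_[p])‖ < 1 := by
    set W : ℤ_[p] := ⟨w, hw⟩ with hW
    have hmem := PadicInt.appr_spec 1 W
    rw [← PadicInt.norm_le_pow_iff_mem_span_pow] at hmem
    refine ⟨(W.appr 1 : ℤ), ?_⟩
    have e : ‖w - ((W.appr 1 : ℤ) : ℚ_[p])‖ = ‖W - (W.appr 1 : ℤ_[p])‖ := by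
      rw [PadicInt.norm_def, PadicInt.coe_sub, PadicInt.coe_natCast, hW, Int.cast_natCast]
    rw [e]
    refine hmem.trans_lt ?_
    have hp1 : (1 : ℝ) < p := by exact_mod_cast hp.out.one_lt
    simp only [Nat.cast_one, zpow_neg, zpow_one]
    exact inv_lt_one_of_one_lt₀ hp1
  apply ha z
  rw [← norm_int_lt (p := p)]
  push_cast
  have e : (z : ℚ_[p]) ^ 2 + a = -((w - z) * (w + z)) - ρ * w - ρ ^ 2 := by
    linear_combination h
  rw [e]
  have hwz : ‖w + z‖ ≤ 1 := (Padic.nonarchimedean _ _).trans (max_le hw (Padic.norm_int_le_one z))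
  have h1 : ‖-((w - z) * (w + z))‖ < 1 := by
    rw [norm_neg, norm_mul]
    exact mul_lt_one_of_nonneg_of_lt_one_left (norm_nonneg _) hz hwz
  have h2 : ‖-(ρ * w)‖ < 1 := by
    rw [norm_neg, norm_mul]
    exact mul_lt_one_of_nonneg_of_lt_one_left (norm_nonneg _) hρ hw
  have h3 : ‖-(ρ ^ 2)‖ < 1 := by
    rw [norm_neg, norm_pow]
    exact pow_lt_one₀ (norm_nonneg _) hρ (by norm_num)
  have e2 : -((w - z) * (w + z)) - ρ * w - ρ ^ 2 = (-((w - z) * (w + z)) + -(ρ * w)) + -(ρ ^ 2) := by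
    ring
  rw [e2]
  exact (Padic.nonarchimedean _ _).trans_lt (max_lt
    ((Padic.nonarchimedean _ _).trans_lt (max_lt h1 h2)) h3)

/-- `- m` or `- m / (- a)` is a square modulo `p`. -/
theorem residues (hp2 : p ≠ 2) (a : ℤ) (ha : ∀ z : ℤ, ¬ (p : ℤ) ∣ z ^ 2 + a) (m : ℤ)
    (hm : ¬ (p : ℤ) ∣ m) : (∃ e : ℤ, ¬ (p : ℤ) ∣ e ∧ (p : ℤ) ∣ m + e ^ 2) ∨
      ∃ e : ℤ, ¬ (p : ℤ) ∣ e ∧ (p : ℤ) ∣ m - a * e ^ 2 := by
  have ha0 : ((a : ℤ) : ZMod p) ≠ 0 := by
    rw [Ne, ZMod.intCast_zmod_eq_zero_iff_dvd]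
    intro h; exact ha 0 (by simpa using h)
  have hm0 : ((m : ℤ) : ZMod p) ≠ 0 := by
    rw [Ne, ZMod.intCast_zmod_eq_zero_iff_dvd]; exact hm
  have hna : ¬ IsSquare (-(a : ZMod p)) := by
    rintro ⟨z, hz⟩
    obtain ⟨z', rfl⟩ := ZMod.intCast_surjective z
    apply ha z'
    rw [← ZMod.intCast_zmod_eq_zero_iff_dvd]
    push_cast
    linear_combination -hz
  by_cases hs : IsSquare (-(m : ZMod p))
  · obtain ⟨e, he⟩ := hs
    obtain ⟨e', rfl⟩ := ZMod.intCast_surjective e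
    left
    refine ⟨e', ?_, ?_⟩
    · intro h
      rw [← ZMod.intCast_zmod_eq_zero_iff_dvd] at h
      rw [h, mul_zero, neg_eq_zero] at he
      exact hm0 he
    · rw [← ZMod.intCast_zmod_eq_zero_iff_dvd]
      push_cast
      linear_combination -he
  · right
    have h2 : ringChar (ZMod p) ≠ 2 := by rwa [ZMod.ringChar_zmod_n]
    have hprod : IsSquare (-(m : ZMod p) * -(a : ZMod p)) := by
      have q1 := quadraticChar_neg_one_iff_not_isSquare.2 hs
      have q2 := quadraticChar_neg_one_iff_not_isSquare.2 hna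
      have q3 : quadraticChar (ZMod p) (-(m : ZMod p) * -(a : ZMod p)) = 1 := by
        rw [map_mul, q1, q2]; norm_num
      exact (quadraticChar_one_iff_isSquare (mul_ne_zero (neg_ne_zero.2 hm0) (neg_ne_zero.2 ha0))).1 q3
    obtain ⟨w, hw⟩ := hprod
    obtain ⟨e', he'⟩ := ZMod.intCast_surjective (w / (a : ZMod p))
    have hw0 : w ≠ 0 := by
      rintro rfl
      rw [mul_zero, neg_mul_neg] at hw
      exact mul_ne_zero hm0 ha0 hw
    refine ⟨e', ?_, ?_⟩
    · intro h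
      rw [← ZMod.intCast_zmod_eq_zero_iff_dvd, he'] at h
      exact div_ne_zero hw0 ha0 h
    · rw [← ZMod.intCast_zmod_eq_zero_iff_dvd]
      push_cast
      rw [he']
      field_simp
      linear_combination hw


/-- Square roots in `ℚ_p`. -/
theorem sqrt_qp (hp2 : p ≠ 2) {u s : ℚ_[p]} (h : ‖u - s ^ 2‖ < ‖u‖) : ∃ g : ℚ_[p], g ^ 2 = u := by
  obtain ⟨G, hG⟩ := sqrt_poly (p := p) hp2 (t := 0) (u := algebraMap ℚ_[p] (PadicAlgCl p) u)
    (s := algebraMap ℚ_[p] (PadicAlgCl p) s) (fun σ _ => AlgEquiv.commutes _ _)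
    (fun σ _ => AlgEquiv.commutes _ _) (by rw [← map_pow, ← map_sub, norm_coe, norm_coe]; exact h)
  refine ⟨G.eval 0, (algebraMap ℚ_[p] (PadicAlgCl p)).injective ?_⟩
  rw [← hG, map_pow]
  congr 1
  have := Polynomial.aeval_algebraMap_apply (PadicAlgCl p) (0 : ℚ_[p]) G
  rw [map_zero] at this
  rw [this, Polynomial.coe_aeval_eq_eval]

theorem dp : Pool.Agent.H62.PR.S_DP := by
  intro L O _ _ _ _ _ _ _ a b D θ hc hsq p hp hp2 hb ha hD hD2 h hne hnsq hU hE
  obtain ⟨D', rfl⟩ := hD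
  have hD' : ¬ (p : ℤ) ∣ D' := by
    intro hh; apply hD2; rw [pow_two]; exact mul_dvd_mul_left _ hh
  have hp0 : (p : ℤ) ≠ 0 := by exact_mod_cast hp.out.ne_zero
  have hD'0 : D' ≠ 0 := by rintro rfl; exact hD' (dvd_zero _)
  set D : ℤ := (p : ℤ) * D' with hDdef
  have hD0 : D ≠ 0 := mul_ne_zero hp0 hD'0
  obtain ⟨ρ, hρ, hρ0⟩ := exists_rho (p := p) hp2 a b hb ha
  have hirr := quad_irr (p := p) a ha ρ hρ
  set R : PadicAlgCl p := algebraMap ℚ_[p] (PadicAlgCl p) ρ with hR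
  have hRn : ‖R‖ < 1 := by rw [hR, norm_coe]; exact hρ
  have h2 : (2 : PadicAlgCl p) ≠ 0 := two_ne_zero
  have haΩ : ((a : ℤ) : PadicAlgCl p) = algebraMap ℚ_[p] (PadicAlgCl p) (a : ℚ_[p]) := by
    rw [map_intCast]
  have hbΩ : ((b : ℤ) : PadicAlgCl p) = algebraMap ℚ_[p] (PadicAlgCl p) (b : ℚ_[p]) := by
    rw [map_intCast]
  have hDΩ : ((D : ℤ) : PadicAlgCl p) = algebraMap ℚ_[p] (PadicAlgCl p) (D : ℚ_[p]) := by
    rw [map_intCast]
  have hDΩ0 : ((D : ℤ) : PadicAlgCl p) ≠ 0 := by exact_mod_cast hD0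
  have hDQ0 : ((D : ℤ) : ℚ_[p]) ≠ 0 := by exact_mod_cast hD0
  have hbR : ((b : ℤ) : PadicAlgCl p) = -R ^ 3 - a * R := by
    have : (b : ℚ_[p]) = -ρ ^ 3 - a * ρ := by linear_combination hρ0
    rw [hbΩ, this, haΩ, hR]
    simp only [map_sub, map_neg, map_mul, map_pow]
  -- the other zeros
  obtain ⟨δ, hδ⟩ := IsAlgClosed.exists_pow_nat_eq (R ^ 2 - 4 * (a + R ^ 2)) (n := 2) (by norm_num)
  set r₂ : PadicAlgCl p := (-R + δ) / 2 with hr2
  set r₃ : PadicAlgCl p := (-R - δ) / 2 with hr3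
  have hsum : r₂ + r₃ = -R := by rw [hr2, hr3]; ring
  have hprod : r₂ * r₃ = a + R ^ 2 := by
    rw [hr2, hr3]; linear_combination (-1 / 4) * hδ
  have hroots : ∀ t : PadicAlgCl p, t ^ 3 + a * t + b = (t - R) * (t - r₂) * (t - r₃) := by
    intro t
    rw [hbR]
    linear_combination (t ^ 2 - R * t) * hsum - (t - R) * hprod
  have hq2 : r₂ ^ 2 + R * r₂ + (a + R ^ 2) = 0 := by
    linear_combination r₂ * hsum - hprod
  have hfixR : ∀ σ : PadicAlgCl p ≃ₐ[ℚ_[p]] PadicAlgCl p, σ R = R := fun σ => AlgEquiv.commutes _ _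
  have n12 : R ≠ r₂ := by
    intro h12
    apply hirr ρ
    apply (algebraMap ℚ_[p] (PadicAlgCl p)).injective
    rw [← h12] at hq2
    rw [map_zero, map_add, map_add, map_add, map_mul, map_pow, ← hR, ← haΩ]
    exact hq2
  have n13 : R ≠ r₃ := by
    intro h13
    apply hirr ρ
    apply (algebraMap ℚ_[p] (PadicAlgCl p)).injective
    have hq3 : r₃ ^ 2 + R * r₃ + (a + R ^ 2) = 0 := by
      linear_combination r₃ * hsum - hprod
    rw [← h13] at hq3
    rw [map_zero, map_add, map_add, map_add, map_mul, map_pow, ← hR, ← haΩ]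
    exact hq3
  have n23 : r₂ ≠ r₃ := by
    intro h23
    apply hirr (-ρ / 2)
    apply (algebraMap ℚ_[p] (PadicAlgCl p)).injective
    have e : r₂ = -R / 2 := by
      rw [← h23] at hsum
      linear_combination (1 / 2) * hsum
    rw [e] at hq2
    rw [map_zero, map_add, map_add, map_add, map_mul, map_pow, map_div₀, map_neg, map_ofNat, map_pow,
      ← hR, ← haΩ]
    exact hq2
  obtain ⟨⟨φ, hφ⟩, hnorm⟩ := embeddings (Ω := PadicAlgCl p) hc n12 n13 n23 hroots
  -- `θ` is integral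
  have hθint : IsIntegral ℤ θ := by
    refine ⟨X ^ 3 + C a * X + C b, by monicity!, ?_⟩
    have := hc.root
    simp only [eval₂_add, eval₂_mul, eval₂_pow, eval₂_X, eval₂_C]
    exact_mod_cast this
  have hr2le : ‖r₂‖ ≤ 1 := by
    rw [← hφ]
    exact norm_le_one_of_int (hθint.map φ.toRingHom.toIntAlgHom)
  have hr3le : ‖r₃‖ ≤ 1 := by
    have e : r₃ = -R - r₂ := by linear_combination hsum
    rw [e]
    exact (Pad.norm_sub_le _ _).trans (max_le (by rw [norm_neg]; exact hRn.le) hr2le)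
  have ha0 : ¬ (p : ℤ) ∣ a := by
    intro h'; exact ha 0 (by simpa using h')
  have haR : ‖(a : PadicAlgCl p) + R ^ 2‖ = 1 := by
    have e := norm_intCast_eq (p := p) ha0
    rw [← e]
    apply norm_eq_of_sub_lt
    rw [e, sub_add_cancel_left, norm_neg, norm_pow]
    exact pow_lt_one₀ (norm_nonneg _) hRn (by norm_num)
  have hr2n : ‖r₂‖ = 1 := by
    apply le_antisymm hr2le
    have := congrArg norm hprod
    rw [norm_mul, haR] at this
    rw [← this]
    exact mul_le_of_le_one_right (norm_nonneg _) hr3le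
  have hr20 : r₂ ≠ 0 := by
    intro h0; rw [h0, norm_zero] at hr2n; exact zero_ne_one hr2n
  -- the place
  set 𝔓 := pl O φ.toRingHom with h𝔓
  have hOv : Ov (p : ℤ) 𝔓 := by
    show ((p : ℤ) : O) ∈ pI O φ.toRingHom
    rw [Int.cast_natCast]
    exact p_mem φ.toRingHom
  obtain ⟨θO, hθO⟩ := (IsIntegralClosure.isIntegral_iff (A := O)).1 hθint
  have hval : 𝔓.valuation L θ = 1 := by
    apply le_antisymm
    · rw [← hθO]; exact 𝔓.valuation_le_one _
    · by_contra hcon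
      push Not at hcon
      have := lt_of φ.toRingHom θ hcon
      have e : φ.toRingHom θ = r₂ := hφ
      rw [e, hr2n] at this
      exact lt_irrefl _ this
  obtain ⟨hU1, hU2⟩ := hU 𝔓 hOv hval
  -- polynomials
  set x : L := aeval ((D : L) * θ) h with hx
  set H : ℚ_[p][X] := h.map (algebraMap ℚ ℚ_[p]) with hH
  have hevΩ : ∀ (t : PadicAlgCl p) (g : ℚ[X]), aeval t (g.map (algebraMap ℚ ℚ_[p])) = aeval t g :=
    fun t g => aeval_map_algebraMap ℚ_[p] t g
  have hφfix : ∀ (y : L) (σ : PadicAlgCl p ≃ₐ[ℚ_[p]] PadicAlgCl p), σ r₂ = r₂ → σ (φ y) = φ y := by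
    intro y σ hσ
    obtain ⟨g, rfl⟩ := gen_poly hc y
    rw [← aeval_algHom_apply, hφ, ← hevΩ, aeval_fixed, hσ]
  have hcomp : ∀ t : PadicAlgCl p, aeval t (h.comp (C (D : ℚ) * X)) = aeval ((D : PadicAlgCl p) * t) h := by
    intro t
    rw [aeval_comp]
    simp
  have hcompL : aeval θ (h.comp (C (D : ℚ) * X)) = x := by
    rw [aeval_comp, hx]
    simp
  have hφx : φ x = aeval ((D : PadicAlgCl p) * r₂) h := by
    rw [← hcompL, ← aeval_algHom_apply, hφ, hcomp]
  obtain ⟨c, hcn⟩ := hnsq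
  have hN := hnorm (h.comp (C (D : ℚ) * X))
  rw [hcomp, hcomp, hcomp, hcompL, hcn] at hN
  have hx0 : x ≠ 0 := hne
  have hN0 : Algebra.norm ℚ x ≠ 0 := Algebra.norm_ne_zero_iff.2 hx0
  have hc0 : c ≠ 0 := by
    rintro rfl; rw [mul_zero] at hcn; exact hN0 hcn
  have hcΩ : (algebraMap ℚ (PadicAlgCl p)) c ≠ 0 := by rwa [Ne, map_eq_zero]
  have hN' : aeval ((D : PadicAlgCl p) * R) h * aeval ((D : PadicAlgCl p) * r₂) h *
      aeval ((D : PadicAlgCl p) * r₃) h ≠ 0 := by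
    rw [← hN, map_mul]; exact mul_ne_zero hcΩ hcΩ
  have hv2 : aeval ((D : PadicAlgCl p) * r₂) h ≠ 0 := fun h0 => hN' (by rw [h0]; ring)
  have hv3 : aeval ((D : PadicAlgCl p) * r₃) h ≠ 0 := fun h0 => hN' (by rw [h0]; ring)
  have hcc : (algebraMap ℚ (PadicAlgCl p)) c = algebraMap ℚ_[p] (PadicAlgCl p) (algebraMap ℚ ℚ_[p] c) := by
    rw [← IsScalarTower.algebraMap_apply ℚ ℚ_[p] (PadicAlgCl p)]
  -- the data for `sq_lemma`
  set t₁ : ℚ_[p] := D * ρ with ht1
  set u : ℚ_[p] := D * ρ with hu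
  set v : ℚ_[p] := D ^ 2 * (a + ρ ^ 2) with hv
  have ht1Ω : algebraMap ℚ_[p] (PadicAlgCl p) t₁ = (D : PadicAlgCl p) * R := by
    rw [ht1, map_mul, ← hDΩ, hR]
  have hvΩ : algebraMap ℚ_[p] (PadicAlgCl p) v = (D : PadicAlgCl p) ^ 2 * (a + R ^ 2) := by
    rw [hv, map_mul, map_pow, map_add, map_pow, ← hDΩ, ← haΩ, hR]
  have hirr' : ∀ z : ℚ_[p], z ^ 2 + u * z + v ≠ 0 := by
    intro z hz
    apply hirr (z / D)
    have e : (z / D) ^ 2 + ρ * (z / D) + (a + ρ ^ 2) = (z ^ 2 + u * z + v) / D ^ 2 := by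
      rw [hu, hv]; field_simp
    rw [e, hz, zero_div]
  have h23 : (D : PadicAlgCl p) * r₂ + D * r₃ = - algebraMap ℚ_[p] (PadicAlgCl p) u := by
    have : algebraMap ℚ_[p] (PadicAlgCl p) u = (D : PadicAlgCl p) * R := ht1Ω
    rw [this]; linear_combination (D : PadicAlgCl p) * hsum
  have h23' : (D : PadicAlgCl p) * r₂ * (D * r₃) = algebraMap ℚ_[p] (PadicAlgCl p) v := by
    rw [hvΩ]; linear_combination (D : PadicAlgCl p) ^ 2 * hprod
  have hfixD : ∀ σ : PadicAlgCl p ≃ₐ[ℚ_[p]] PadicAlgCl p, σ ((D : PadicAlgCl p) * r₂) = D * r₂ →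
      σ r₂ = r₂ := by
    intro σ hσ
    rw [map_mul, map_intCast] at hσ
    exact mul_left_cancel₀ hDΩ0 hσ
  have hbQ : (b : ℚ_[p]) = -ρ ^ 3 - a * ρ := by linear_combination hρ0
  have hpoly : (X ^ 3 + C (algebraMap ℚ ℚ_[p] (((a * D ^ 2 : ℤ)) : ℚ)) * X +
      C (algebraMap ℚ ℚ_[p] (((b * D ^ 3 : ℤ)) : ℚ)) : ℚ_[p][X]) =
      (X - C t₁) * (X ^ 2 + C u * X + C v) := by
    have e1 : algebraMap ℚ ℚ_[p] (((a * D ^ 2 : ℤ)) : ℚ) = a * D ^ 2 := by
      rw [map_intCast]; push_cast; ring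
    have e2 : algebraMap ℚ ℚ_[p] (((b * D ^ 3 : ℤ)) : ℚ) = (-ρ ^ 3 - a * ρ) * D ^ 3 := by
      rw [map_intCast]; push_cast; rw [hbQ]
    rw [e1, e2, hv, ht1, hu]
    simp only [C_mul, C_add, C_pow, C_sub, C_neg]
    ring
  have hH1 : algebraMap ℚ_[p] (PadicAlgCl p) (H.eval t₁) = aeval ((D : PadicAlgCl p) * R) h := by
    rw [← ht1Ω, hH, ← hevΩ, Polynomial.aeval_algebraMap_apply, Polynomial.coe_aeval_eq_eval]
  unfold PLoc
  rw [hpoly]
  by_cases hev : Ev 𝔓 x
  · left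
    obtain ⟨s, hs⟩ := sq1 φ.toRingHom x hx0 (hU1 hev)
    have e1 : φ.toRingHom x = aeval ((D : PadicAlgCl p) * r₂) h := hφx
    have e2 : φ.toRingHom s = φ s := rfl
    rw [e1, e2] at hs
    refine sq_lemma hp2 t₁ u v hirr' _ _ h23 h23' H (algebraMap ℚ ℚ_[p] c) ?_ ?_ ?_ (φ s) ?_ ?_
    · rw [hH, hevΩ]; exact hv2
    · rw [hH, hevΩ]; exact hv3
    · rw [hH1, hH, hevΩ, hevΩ, ← hN, ← hcc, map_mul, pow_two]
    · intro σ hσ
      exact hφfix s σ (hfixD σ hσ)
    · rw [hH, hevΩ]; exact hs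
  · right
    have hpθ : x * ((p : L) * θ) ≠ 0 := by
      refine mul_ne_zero hx0 (mul_ne_zero (by exact_mod_cast hp.out.ne_zero) ?_)
      intro h0
      rw [h0, map_zero] at hφ
      exact hr20 hφ.symm
    obtain ⟨s, hs⟩ := sq1 φ.toRingHom _ hpθ (hU2 hev)
    set z : PadicAlgCl p := aeval ((D : PadicAlgCl p) * r₂) h with hz
    set W : PadicAlgCl p := z * ((p : PadicAlgCl p) * r₂) with hW
    have e1 : φ.toRingHom (x * ((p : L) * θ)) = W := by
      show φ (x * ((p : L) * θ)) = W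
      rw [map_mul, map_mul, hφx, hφ, map_natCast]
    have e2 : φ.toRingHom s = φ s := rfl
    rw [e1, e2] at hs
    -- the sign
    obtain ⟨ε, hε1, hε2, hεfix⟩ : ∃ ε : PadicAlgCl p, ‖ε‖ = 1 ∧ ‖-(D' : PadicAlgCl p) - ε ^ 2‖ < 1 ∧
        ∀ σ : PadicAlgCl p ≃ₐ[ℚ_[p]] PadicAlgCl p, σ r₂ = r₂ → σ ε = ε := by
      rcases residues (p := p) hp2 a ha D' hD' with ⟨e, he, he'⟩ | ⟨e, he, he'⟩
      · refine ⟨(e : PadicAlgCl p), norm_intCast_eq he, ?_, fun σ _ => map_intCast _ _⟩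
        have : -(D' : PadicAlgCl p) - (e : PadicAlgCl p) ^ 2 = -((D' + e ^ 2 : ℤ) : PadicAlgCl p) := by
          push_cast; ring
        rw [this, norm_neg]
        exact (norm_intCast _).2 he'
      · refine ⟨(e : PadicAlgCl p) * r₂, ?_, ?_, fun σ hσ => by rw [map_mul, map_intCast, hσ]⟩
        · rw [norm_mul, norm_intCast_eq he, hr2n, mul_one]
        · have : -(D' : PadicAlgCl p) - ((e : PadicAlgCl p) * r₂) ^ 2 =
              -((D' - a * e ^ 2 : ℤ) : PadicAlgCl p) + (e : PadicAlgCl p) ^ 2 * (R * r₂ + R ^ 2) := by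
            push_cast; linear_combination (-(e : PadicAlgCl p) ^ 2) * hq2
          rw [this]
          refine (Pad.norm_add_le _ _).trans_lt (max_lt ?_ ?_)
          · rw [norm_neg]; exact (norm_intCast _).2 he'
          · rw [norm_mul, norm_pow, norm_intCast_eq he, one_pow, one_mul]
            refine (Pad.norm_add_le _ _).trans_lt (max_lt ?_ ?_)
            · rw [norm_mul, hr2n, mul_one]; exact hRn
            · rw [norm_pow]; exact pow_lt_one₀ (norm_nonneg _) hRn (by norm_num)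
    -- the point
    have hpQ : ‖(p : ℚ_[p])‖ < 1 := Padic.norm_p_lt_one
    have hDQ : ‖(D : ℚ_[p])‖ < 1 := (norm_int_lt D).2 ⟨D', rfl⟩
    set N : ℚ_[p] := D ^ 2 * (3 * ρ ^ 2 + a) with hNdef
    have h3 : ‖(3 : ℚ_[p])‖ ≤ 1 := by
      have := Padic.norm_int_le_one (p := p) 3
      exact_mod_cast this
    have h3ρ : ‖3 * ρ ^ 2‖ < 1 := by
      rw [norm_mul, norm_pow]
      exact mul_lt_one_of_nonneg_of_lt_one_right h3 (by positivity)
        (pow_lt_one₀ (norm_nonneg _) hρ (by norm_num))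
    have hn3a : ‖3 * ρ ^ 2 + (a : ℚ_[p])‖ = 1 := by
      have e := norm_intCast_eq (p := p) ha0
      rw [haΩ, norm_coe] at e
      have e' : ‖(algebraMap ℚ_[p] (PadicAlgCl p)) (3 * ρ ^ 2 + (a : ℚ_[p]))‖ =
          ‖(algebraMap ℚ_[p] (PadicAlgCl p)) (a : ℚ_[p])‖ := by
        apply norm_eq_of_sub_lt
        rw [← map_sub, norm_coe, norm_coe, e]
        have : (a : ℚ_[p]) - (3 * ρ ^ 2 + a) = -(3 * ρ ^ 2) := by ring
        rw [this, norm_neg]; exact h3ρ
      rw [norm_coe, norm_coe, e] at e'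
      exact e'
    have hNn : ‖N‖ = ‖(D : ℚ_[p])‖ ^ 2 := by rw [hNdef, norm_mul, hn3a, mul_one, norm_pow]
    have hDpos : 0 < ‖(D : ℚ_[p])‖ := norm_pos_iff.2 hDQ0
    have hN00 : N ≠ 0 := by
      rw [← norm_pos_iff, hNn]; positivity
    have hNlt : ‖N‖ < 1 := by rw [hNn]; exact pow_lt_one₀ (norm_nonneg _) hDQ (by norm_num)
    have hm : ‖N + 3 * (D * ρ)‖ < 1 := by
      refine (Padic.nonarchimedean _ _).trans_lt (max_lt hNlt ?_)
      rw [norm_mul, norm_mul]
      exact mul_lt_one_of_nonneg_of_lt_one_right h3 (by positivity)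
        (mul_lt_one_of_nonneg_of_lt_one_left (norm_nonneg _) hDQ hρ.le)
    have hm1 : ‖1 + (N + 3 * (D * ρ))‖ = 1 := by
      have e' : ‖(algebraMap ℚ_[p] (PadicAlgCl p)) (1 + (N + 3 * (D * ρ)))‖ =
          ‖(algebraMap ℚ_[p] (PadicAlgCl p)) (1 : ℚ_[p])‖ := by
        apply norm_eq_of_sub_lt
        rw [← map_sub, norm_coe, norm_coe, norm_one, sub_add_cancel_left, norm_neg]
        exact hm
      rw [norm_coe, norm_coe, norm_one] at e'
      exact e'
    obtain ⟨y₁, hy₁⟩ := sqrt_qp (p := p) hp2 (u := 1 + (N + 3 * (D * ρ))) (s := 1) (by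
      rw [hm1, one_pow, add_sub_cancel_left]; exact hm)
    have hy₁0 : y₁ ≠ 0 := by
      rintro rfl
      rw [zero_pow (by norm_num)] at hy₁
      rw [← hy₁, norm_zero] at hm1
      exact zero_ne_one hm1
    have e3 : algebraMap ℚ ℚ_[p] (((a * D ^ 2 : ℤ)) : ℚ) = a * D ^ 2 := by
      rw [map_intCast]; push_cast; ring
    have e4 : algebraMap ℚ ℚ_[p] (((b * D ^ 3 : ℤ)) : ℚ) = (-ρ ^ 3 - a * ρ) * D ^ 3 := by
      rw [map_intCast]; push_cast; rw [hbQ]
    have hxy : (N * y₁) ^ 2 = (t₁ + N - t₁) * ((t₁ + N) ^ 2 + u * (t₁ + N) + v) := by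
      rw [mul_pow, hy₁, hv, ht1, hu]
      have : (N : ℚ_[p]) = D ^ 2 * (3 * ρ ^ 2 + a) := hNdef
      linear_combination (-N) * this
    refine ⟨t₁ + N, N * y₁, mul_ne_zero hN00 hy₁0, ?_, ?_⟩
    · rw [hxy, e3, e4, hv, ht1, hu]; ring
    · set N' : PadicAlgCl p := algebraMap ℚ_[p] (PadicAlgCl p) N with hN'
      have hev2 : ∀ t : PadicAlgCl p, aeval t ((C (t₁ + N) - X) * H) =
          ((D : PadicAlgCl p) * R + N' - t) * aeval t h := by
        intro t
        rw [map_mul, map_sub, aeval_C, aeval_X, map_add, ht1Ω, hH, hevΩ]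
      have hf : (((D : PadicAlgCl p) * R + N' - D * r₂) * ((D : PadicAlgCl p) * R + N' - D * r₃)) =
          (algebraMap ℚ_[p] (PadicAlgCl p)) ((t₁ + N) ^ 2 + u * (t₁ + N) + v) := by
        rw [map_add, map_add, map_pow, map_mul, map_add, hvΩ, ht1Ω]
        rw [← hN']
        linear_combination (-(D : PadicAlgCl p) * (D * R + N')) * hsum + (D : PadicAlgCl p) ^ 2 * hprod
      have hfz : (t₁ + N) ^ 2 + u * (t₁ + N) + v ≠ 0 := hirr' _
      have hf0 : ((D : PadicAlgCl p) * R + N' - D * r₂) * ((D : PadicAlgCl p) * R + N' - D * r₃) ≠ 0 := by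
        rw [hf, Ne, map_eq_zero]; exact hfz
      -- the main estimate
      have hDn : ‖(D : PadicAlgCl p)‖ = ‖(p : PadicAlgCl p)‖ := by
        have : (D : PadicAlgCl p) = (p : PadicAlgCl p) * (D' : PadicAlgCl p) := by
          rw [hDdef]; push_cast; ring
        rw [this, norm_mul, norm_intCast_eq hD', mul_one]
      have hWn : ‖W‖ = ‖(D : PadicAlgCl p)‖ * ‖z‖ := by
        rw [hW, norm_mul, norm_mul, hr2n, mul_one, hDn, mul_comm]
      have hz0 : 0 < ‖z‖ := norm_pos_iff.2 hv2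
      have hDΩn : 0 < ‖(D : PadicAlgCl p)‖ := norm_pos_iff.2 hDΩ0
      have hDΩlt : ‖(D : PadicAlgCl p)‖ < 1 := (norm_intCast D).2 ⟨D', rfl⟩
      have hWpos : 0 < ‖W‖ := by rw [hWn]; positivity
      have hT : ‖((D : PadicAlgCl p) * R + N') * z‖ < ‖W‖ := by
        rw [hWn, norm_mul]
        refine mul_lt_mul_of_pos_right ?_ hz0
        refine (Pad.norm_add_le _ _).trans_lt (max_lt ?_ ?_)
        · rw [norm_mul]
          exact mul_lt_of_lt_one_right hDΩn hRn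
        · rw [hN', norm_coe, hNn, ← norm_coe (D : ℚ_[p]), ← hDΩ, pow_two]
          exact mul_lt_of_lt_one_right hDΩn hDΩlt
      have hkey : ((D : PadicAlgCl p) * R + N' - D * r₂) * z =
          -(D' : PadicAlgCl p) * W + ((D : PadicAlgCl p) * R + N') * z := by
        have : (D : PadicAlgCl p) = (p : PadicAlgCl p) * (D' : PadicAlgCl p) := by
          rw [hDdef]; push_cast; ring
        rw [hW]
        linear_combination (-r₂ * z) * this
      have hnD'W : ‖-(D' : PadicAlgCl p) * W‖ = ‖W‖ := by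
        rw [norm_mul, norm_neg, norm_intCast_eq hD', one_mul]
      have hnkey : ‖((D : PadicAlgCl p) * R + N' - D * r₂) * z‖ = ‖W‖ := by
        rw [← hnD'W]
        apply norm_eq_of_sub_lt
        rw [hkey, sub_add_cancel_left, norm_neg, hnD'W]
        exact hT
      refine sq_lemma hp2 t₁ u v hirr' _ _ h23 h23' ((C (t₁ + N) - X) * H)
        (N * y₁ * algebraMap ℚ ℚ_[p] c) ?_ ?_ ?_ (ε * φ s) ?_ ?_
      · rw [hev2]
        exact mul_ne_zero (fun h0 => hf0 (by rw [h0, zero_mul])) hv2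
      · rw [hev2]
        exact mul_ne_zero (fun h0 => hf0 (by rw [h0, mul_zero])) hv3
      · have e5 : (algebraMap ℚ_[p] (PadicAlgCl p)) (eval t₁ ((C (t₁ + N) - X) * H)) =
            (algebraMap ℚ_[p] (PadicAlgCl p)) (t₁ + N - t₁) * aeval ((D : PadicAlgCl p) * R) h := by
          rw [eval_mul, eval_sub, eval_C, eval_X, map_mul, hH1]
        have e7 : (algebraMap ℚ_[p] (PadicAlgCl p)) ((N * y₁) ^ 2) =
            (algebraMap ℚ_[p] (PadicAlgCl p)) (t₁ + N - t₁) *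
              (((D : PadicAlgCl p) * R + N' - D * r₂) * ((D : PadicAlgCl p) * R + N' - D * r₃)) := by
          rw [hxy, map_mul, hf]
        have e8 : (algebraMap ℚ_[p] (PadicAlgCl p) (N * y₁ * algebraMap ℚ ℚ_[p] c)) ^ 2 =
            (algebraMap ℚ_[p] (PadicAlgCl p)) ((N * y₁) ^ 2) * algebraMap ℚ (PadicAlgCl p) (c * c) := by
          rw [map_mul (algebraMap ℚ_[p] (PadicAlgCl p)) (N * y₁), ← hcc, mul_pow, map_pow,
            map_mul (algebraMap ℚ (PadicAlgCl p))]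
          ring
        rw [e8, e7, hN, e5, hev2, hev2]
        ring
      · intro σ hσ
        rw [map_mul, hεfix σ (hfixD σ hσ), hφfix s σ (hfixD σ hσ)]
      · rw [hev2, hnkey, hkey]
        have e6 : -(D' : PadicAlgCl p) * W + ((D : PadicAlgCl p) * R + N') * z - (ε * φ s) ^ 2 =
            ((-(D' : PadicAlgCl p) - ε ^ 2) * W + ε ^ 2 * (W - φ s ^ 2)) +
              ((D : PadicAlgCl p) * R + N') * z := by ring
        rw [e6]
        refine (Pad.norm_add_le _ _).trans_lt (max_lt ((Pad.norm_add_le _ _).trans_lt (max_lt ?_ ?_)) hT)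
        · rw [norm_mul]; exact mul_lt_of_lt_one_left hWpos hε2
        · rw [norm_mul, norm_pow, hε1, one_pow, one_mul]; exact hs

end main

end Pool.Agent.H25.PR.Dp
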