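import Pool.Agent.H62.PR.Loc0
import Pool.Graph.R_pool_sql_team_seeded_63374d34.N774.PQ.TTB
import Pool.Graph.R_pool_sql_team_seeded_63374d34.N849.PQ.Int

/-!
# Project PR, part LOC0 (helper25)
-/

set_option autoImplicit false
set_option linter.all false

open IsDedekindDomain NumberField WithZero Polynomial Matrix
open scoped Classical

namespace Pool.Agent.H25.PR.Loc0

open Pool.Agent.N874.PP (Tup chA chB gq tau Two Ev Sq1 U0)
open Pool.Agent.N922.PQ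
open Pool.Agent.N301.PQ (co_crd crd_inj crd_add crd_smul crd_C crd_theta mapO exO theta_ex mem_P1
  mem_P2 mem_both poly_mem int_iff val_lt_mem)
open Pool.Agent.H62.PR

section main

variable {L O : Type} [Field L] [NumberField L] [CommRing O]
  [IsDedekindDomain O] [Algebra O L] [IsFractionRing O L] [IsIntegralClosure O ℤ L]

theorem stepA {α : L} (hα : α ≠ 0) {𝔓 : HeightOneSpectrum O} (hs : Sq1 𝔓 α) :
    ∃ (y : L) (t g : O), y ∈ M0 O α ∧ t ∉ 𝔓.asIdeal ∧ algebraMap O L g = y * y / α ∧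
      g - t ^ 2 ∈ 𝔓.asIdeal := by
  obtain ⟨s, hs⟩ := hs
  have hvα : 𝔓.valuation L α ≠ 0 := (Valuation.ne_zero_iff _).2 hα
  have hvs : 𝔓.valuation L (s ^ 2) = 𝔓.valuation L α := by
    have h1 : s ^ 2 = α - (α - s ^ 2) := by ring
    rw [h1]
    exact Valuation.map_sub_eq_of_lt_left _ hs
  obtain ⟨c, d, hd⟩ := 𝔓.exists_primeCompl_mul_eq_of_integer (s ^ 2 / α) (by
    rw [map_div₀, hvs, div_self hvα])
  refine ⟨algebraMap O L (d : O) * s, (d : O), (d : O) * c, ?_, d.2, ?_, ?_⟩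
  · rw [mem_M0 hα]
    have e : (algebraMap O L (d : O) * s) ^ 2 / α = algebraMap O L ((d : O) * c) := by
      rw [map_mul, ← hd]
      ring
    rw [e]
    exact (int_iff O _).2 ⟨_, rfl⟩
  · rw [map_mul, ← hd]
    ring
  · rw [← val_lt_mem (L := L)]
    have h1 : algebraMap O L ((d : O) * c - (d : O) ^ 2) =
        - ((algebraMap O L (d : O)) ^ 2 * ((α - s ^ 2) / α)) := by
      rw [map_sub, map_pow, map_mul, ← hd]
      field_simp
      ring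
    rw [h1, Valuation.map_neg, map_mul, map_pow, map_div₀]
    have h2 : 𝔓.valuation L (α - s ^ 2) / 𝔓.valuation L α < 1 :=
      (div_lt_one₀ (zero_lt_iff.2 hvα)).2 hs
    calc _ ≤ 1 * (𝔓.valuation L (α - s ^ 2) / 𝔓.valuation L α) :=
          mul_le_mul_left (pow_le_one₀ zero_le (𝔓.valuation_le_one _)) _
      _ < 1 := by rw [one_mul]; exact h2

/-- an element of `M0` which is good at `𝔓` and small at `𝔓'` -/
theorem stepB {α : L} (hα : α ≠ 0)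
    {𝔓 𝔓' : HeightOneSpectrum O} (hs : Sq1 𝔓 α) (hne : ∃ p ∈ 𝔓'.asIdeal, p ∉ 𝔓.asIdeal) :
    ∃ (x : L) (g : O), x ∈ M0 O α ∧ algebraMap O L g = x * x / α ∧
      g - 1 ∈ 𝔓.asIdeal ∧ g ∈ 𝔓'.asIdeal := by
  obtain ⟨y, t, g, hy, ht, hg, hgt⟩ := stepA hα hs
  obtain ⟨p, hp', hp⟩ := hne
  have hmax : 𝔓.asIdeal.IsMaximal := 𝔓.isMaximal
  have htp : t * p ∉ 𝔓.asIdeal := fun h => (𝔓.isPrime.mem_or_mem h).elim ht hp
  obtain ⟨c, i, hi, hci⟩ := hmax.exists_inv htp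
  obtain ⟨ε, hε⟩ : ∃ ε, ε = c * p := ⟨_, rfl⟩
  have hεt : ε * t - 1 ∈ 𝔓.asIdeal := by
    have : ε * t - 1 = -i := by rw [hε, ← hci]; ring
    rw [this]
    exact 𝔓.asIdeal.neg_mem hi
  refine ⟨algebraMap O L ε * y, ε ^ 2 * g, ?_, ?_, ?_, ?_⟩
  · rw [← Algebra.smul_def]
    exact Submodule.smul_mem _ _ hy
  · rw [map_mul, map_pow, hg]
    ring
  · have h1 : ε ^ 2 * g - 1 = ε ^ 2 * (g - t ^ 2) + (ε * t + 1) * (ε * t - 1) := by ring
    rw [h1]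
    exact 𝔓.asIdeal.add_mem (𝔓.asIdeal.mul_mem_left _ hgt) (𝔓.asIdeal.mul_mem_left _ hεt)
  · rw [hε, mul_pow, mul_assoc]
    refine 𝔓'.asIdeal.mul_mem_left _ (𝔓'.asIdeal.mul_mem_right _ ?_)
    exact Ideal.pow_mem_of_mem _ hp' 2 two_pos

end main

/-- polarisation of `quad` -/
theorem quad2 {L : Type} [Field L] [CharZero L] (φ : L →ₗ[ℚ] ℚ) (α : L) (e : Fin 3 → L)
    (η ξ : Fin 3 → ℤ) (G : Fin 3 → Fin 3 → ℤ)
    (hG : ∀ i j, φ (e i * e j / α) = (G i j : ℚ)) :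
    φ ((∑ i, (η i : L) * e i) * (∑ i, (ξ i : L) * e i) / α) =
      ((∑ i, ∑ j, η i * ξ j * G i j : ℤ) : ℚ) := by
  have h1 : (∑ i, (η i : L) * e i) * (∑ i, (ξ i : L) * e i) / α =
      ∑ i, ∑ j, ((η i * ξ j : ℤ) : ℚ) • (e i * e j / α) := by
    rw [Finset.sum_mul_sum, Finset.sum_div]
    refine Finset.sum_congr rfl fun i _ => ?_
    rw [Finset.sum_div]
    refine Finset.sum_congr rfl fun j _ => ?_
    rw [Rat.smul_def]
    push_cast
    ring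
  rw [h1, map_sum]
  push_cast
  refine Finset.sum_congr rfl fun i _ => ?_
  rw [map_sum]
  refine Finset.sum_congr rfl fun j _ => ?_
  rw [map_smul, hG, smul_eq_mul]

/-- **LOC0** -/
theorem loc0 : S_LOC0 := by
  intro L O _ _ _ _ _ _ _ a b θ h hsq α J 𝔭 𝔮 g hT e B hN hbas hmem hA hB Q 𝔓 𝔮' hQ hQ8 hQJ hSq s hs
  have hI : S_INT := Pool.Agent.N849.PQ.int
  have hα := hT.ne
  have hPr := hQ.pr.2
  have hns := hQ.ns
  obtain ⟨t, ht⟩ := theta_ex O h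
  have ht1 : t ∈ 𝔓.asIdeal := by
    rw [← val_lt_mem (L := L), ht]; exact hQ.tp
  have htq : t ∉ 𝔮'.asIdeal := by
    rw [← val_lt_mem (L := L), ht, hQ.tq]
    exact lt_irrefl _
  have ht2 : t ^ 2 + (a : O) ∈ 𝔮'.asIdeal := by
    have h3 : t * (t ^ 2 + (a : O)) ∈ 𝔮'.asIdeal := by
      have e : t * (t ^ 2 + (a : O)) = -(b : O) := by
        apply IsFractionRing.injective O L
        rw [map_mul, map_add, map_pow, mapO, map_neg, mapO, ht]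
        linear_combination h.root
      rw [e]
      exact neg_mem ((poly_mem hPr hQ.oq b).2 hQ.qb)
    exact (𝔮'.isPrime.mem_or_mem h3).resolve_left htq
  have ht2p : t ^ 2 + (a : O) ∉ 𝔓.asIdeal := by
    intro h1
    have h2 : (a : O) ∈ 𝔓.asIdeal := by
      have := 𝔓.asIdeal.sub_mem h1 (𝔓.asIdeal.mul_mem_left t ht1)
      have e : t ^ 2 + (a : O) - t * t = (a : O) := by ring
      rwa [e] at this
    exact hQ.not_dvd_a ((poly_mem hPr hQ.op a).1 h2)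
  have hQ2 : ¬ Q ∣ 2 := by
    intro h2
    have h3 := Int.le_of_dvd (by norm_num) h2
    have h4 := hQ.pr.1
    have h5 : Q = 1 := by omega
    exact hPr.not_unit (by rw [h5]; exact isUnit_one)
  obtain ⟨x₁, g₁, hx₁, hg₁, hg₁P, hg₁q⟩ := stepB hα (hSq 𝔓 hQ.op) ⟨_, ht2, ht2p⟩
  obtain ⟨x₂, g₂, hx₂, hg₂, hg₂q, hg₂P⟩ := stepB hα (hSq 𝔮' hQ.oq) ⟨_, ht1, htq⟩
  obtain ⟨hh, hhh⟩ : ∃ hh : O, algebraMap O L hh = x₁ * x₂ / α :=
    (int_iff O _).1 (F1 (R := ∅) hα (M0_le hx₁) hx₂)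
  have hsqh : hh ^ 2 = g₁ * g₂ := by
    apply IsFractionRing.injective O L
    rw [map_pow, map_mul, hhh, hg₁, hg₂]
    field_simp
  have hhP : hh ∈ 𝔓.asIdeal := by
    apply 𝔓.isPrime.mem_of_pow_mem 2
    rw [hsqh]
    exact 𝔓.asIdeal.mul_mem_left _ hg₂P
  have hhq : hh ∈ 𝔮'.asIdeal := by
    apply 𝔮'.isPrime.mem_of_pow_mem 2
    rw [hsqh]
    exact 𝔮'.asIdeal.mul_mem_right _ hg₁q
  obtain ⟨ξ, hξ⟩ := hbas _ (hT.M0_le_MU hI h hsq _ (Submodule.add_mem _ hx₁ hx₂))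
  obtain ⟨ξ', hξ'⟩ := hbas _ (hT.M0_le_MU hI h hsq _ (Submodule.sub_mem _ hx₁ hx₂))
  -- coordinates of the values
  have hval : ∀ (c : ℤ), c = 1 ∨ c = -1 → ∃ v : Fin 3 → ℤ, Q ∣ v 1 ∧ Q ∣ v 2 ∧
      Crd θ v ((x₁ + (c : L) * x₂) ^ 2 / α) := by
    intro c hc
    have hcc : c * c = 1 := by rcases hc with rfl | rfl <;> ring
    obtain ⟨z, hz⟩ : ∃ z : O, z = g₁ + 2 * (c : O) * hh + g₂ := ⟨_, rfl⟩
    have hzL : algebraMap O L z = (x₁ + (c : L) * x₂) ^ 2 / α := by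
      rw [hz]
      simp only [map_add, map_mul, mapO, hg₁, hg₂, hhh, map_ofNat]
      have h3 : (c : L) * (c : L) = 1 := by
        exact_mod_cast congrArg (Int.cast (R := L)) hcc
      have h4 : (x₁ + (c : L) * x₂) ^ 2 / α = x₁ * x₁ / α +
        2 * (c : L) * (x₁ * x₂ / α) +
        ((c : L) * (c : L)) * (x₂ * x₂ / α) := by ring
      rw [h4, h3, one_mul]
    obtain ⟨v, hvz⟩ := exO (O := O) hI h hsq z
    have hz1 : Crd θ (v + ![-1, 0, 0]) (algebraMap O L (z - 1)) := by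
      have := crd_add hvz (crd_C θ (-1))
      have e1 : algebraMap O L z + ((-1 : ℤ) : L) = algebraMap O L (z - 1) := by
        rw [Int.cast_neg, Int.cast_one, map_sub, map_one]; ring
      rwa [e1] at this
    have hzP : z - 1 ∈ 𝔓.asIdeal := by
      have e1 : z - 1 = (g₁ - 1) + 2 * (c : O) * hh + g₂ := by rw [hz]; ring
      rw [e1]
      exact 𝔓.asIdeal.add_mem (𝔓.asIdeal.add_mem hg₁P (𝔓.asIdeal.mul_mem_left _ hhP)) hg₂P
    have hzq : z - 1 ∈ 𝔮'.asIdeal := by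
      have e1 : z - 1 = g₁ + 2 * (c : O) * hh + (g₂ - 1) := by rw [hz]; ring
      rw [e1]
      exact 𝔮'.asIdeal.add_mem (𝔮'.asIdeal.add_mem hg₁q (𝔮'.asIdeal.mul_mem_left _ hhq)) hg₂q
    obtain ⟨-, h7, h8⟩ := mem_both hPr hns ht hQ.op hQ.oq ht1 ht2 hz1 hzP hzq
    refine ⟨v, ?_, ?_, ?_⟩
    · simpa using h7
    · simpa using h8
    · rw [← hzL]
      exact hvz
  have hv1 : ∃ v : Fin 3 → ℤ, Q ∣ v 1 ∧ Q ∣ v 2 ∧
      Crd θ v ((∑ i, ((ξ i : ℤ) : L) * e i) ^ 2 / α) := by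
    obtain ⟨v, a1, a2, a3⟩ := hval 1 (Or.inl rfl)
    refine ⟨v, a1, a2, ?_⟩
    rw [← hξ]
    rw [Int.cast_one, one_mul] at a3
    exact a3
  have hv1' : ∃ v : Fin 3 → ℤ, Q ∣ v 1 ∧ Q ∣ v 2 ∧
      Crd θ v ((∑ i, ((ξ' i : ℤ) : L) * e i) ^ 2 / α) := by
    obtain ⟨v, a1, a2, a3⟩ := hval (-1) (Or.inr rfl)
    refine ⟨v, a1, a2, ?_⟩
    rw [← hξ']
    rw [Int.cast_neg, Int.cast_one, neg_one_mul, ← sub_eq_add_neg] at a3
    exact a3
  -- the matrix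
  have hBs : ∀ i j, B i j = B j i := by
    intro i j
    have h1 := hN.b i j
    rw [mul_comm (e i), hN.b j i] at h1
    exact_mod_cast h1.symm
  have hbD : ∀ i j, (((∏ Q ∈ J, Q : ℤ) : ℚ) • h.co 1) (e i * e j / α) = (B i j : ℚ) := by
    intro i j
    rw [LinearMap.smul_apply, smul_eq_mul]
    exact hN.b i j
  have main : ∀ (η v : Fin 3 → ℤ), Q ∣ v 1 → Q ∣ v 2 →
      Crd θ v ((∑ i, (η i : L) * e i) ^ 2 / α) →
      Q ∣ 2 * η 0 * η 2 + η 1 ^ 2 ∧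
      Q ∣ B 0 0 * η 0 ^ 2 + 2 * B 0 1 * η 0 * η 1 +
        2 * B 0 2 * η 0 * η 2 - 2 * B 0 2 * η 1 ^ 2 +
        2 * B 1 2 * η 1 * η 2 + B 2 2 * η 2 ^ 2 := by
    intro η v hv1 hv2 hv
    constructor
    · have h1 := co_crd h hv 2
      rw [Pool.Agent.N774.PQ.quad (h.co 2) α e η (fun i j => JJ i j) (fun i j => hN.g i j)] at h1
      have h3 : ∑ i, ∑ j, η i * η j * JJ i j = v 2 := by exact_mod_cast h1
      rw [← h3] at hv2
      have h4 : ∑ i, ∑ j, η i * η j * JJ i j = 2 * η 0 * η 2 + η 1 ^ 2 := by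
        simp [Fin.sum_univ_three, JJ]
        ring
      rwa [h4] at hv2
    · have h1 := Pool.Agent.N774.PQ.quad ((((∏ Q ∈ J, Q : ℤ) : ℚ) • h.co 1)) α e η B hbD
      rw [LinearMap.smul_apply, smul_eq_mul, co_crd h hv 1] at h1
      have h3 : ∑ i, ∑ j, η i * η j * B i j = (∏ Q ∈ J, Q) * v 1 := by exact_mod_cast h1.symm
      have h5 : Q ∣ (∏ Q ∈ J, Q) * v 1 := hv1.mul_left _
      rw [← h3] at h5
      have h4 : ∑ i, ∑ j, η i * η j * B i j = B 0 0 * η 0 ^ 2 + 2 * B 0 1 * η 0 * η 1 +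
        2 * B 0 2 * η 0 * η 2 - 2 * B 0 2 * η 1 ^ 2 +
        2 * B 1 2 * η 1 * η 2 + B 2 2 * η 2 ^ 2 := by
        simp only [Fin.sum_univ_three]
        rw [hN.tr, hBs 1 0, hBs 2 0, hBs 2 1]
        ring
      rwa [h4] at h5
  obtain ⟨v, w1, w2, w3⟩ := hv1
  obtain ⟨v', w1', w2', w3'⟩ := hv1'
  obtain ⟨m1, m2⟩ := main ξ v w1 w2 w3
  obtain ⟨m1', m2'⟩ := main ξ' v' w1' w2' w3'
  -- the polar form
  have hpol : ¬ Q ∣ ξ 0 * ξ' 2 + ξ 1 * ξ' 1 + ξ 2 * ξ' 0 := by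
    intro hdvd
    obtain ⟨v, hvz⟩ := exO (O := O) hI h hsq (g₁ - g₂)
    have e1 : algebraMap O L (g₁ - g₂) =
        (∑ i, (ξ i : L) * e i) * (∑ i, (ξ' i : L) * e i) / α := by
      rw [← hξ, ← hξ', map_sub, hg₁, hg₂]
      ring
    have h1 := co_crd h hvz 2
    rw [e1, quad2 (h.co 2) α e ξ ξ' (fun i j => JJ i j) (fun i j => hN.g i j)] at h1
    have h3 : ∑ i, ∑ j, ξ i * ξ' j * JJ i j = v 2 := by exact_mod_cast h1
    have h4 : ∑ i, ∑ j, ξ i * ξ' j * JJ i j = ξ 0 * ξ' 2 + ξ 1 * ξ' 1 + ξ 2 * ξ' 0 := by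
      simp [Fin.sum_univ_three, JJ]
    rw [h4] at h3
    rw [h3] at hdvd
    -- at `𝔓`
    have k1 : Crd θ (v + ![-1, 0, 0]) (algebraMap O L (g₁ - g₂ - 1)) := by
      have := crd_add hvz (crd_C θ (-1))
      have e1 : algebraMap O L (g₁ - g₂) + ((-1 : ℤ) : L) = algebraMap O L (g₁ - g₂ - 1) := by
        rw [Int.cast_neg, Int.cast_one, map_sub _ (g₁ - g₂) 1, map_one]; ring
      rwa [e1] at this
    have k2 : g₁ - g₂ - 1 ∈ 𝔓.asIdeal := by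
      have : g₁ - g₂ - 1 = (g₁ - 1) - g₂ := by ring
      rw [this]
      exact 𝔓.asIdeal.sub_mem hg₁P hg₂P
    have k3 := (mem_P1 hPr ht hQ.op ht1 k1).1 k2
    have l1 : Crd θ (v + ![1, 0, 0]) (algebraMap O L (g₁ - g₂ + 1)) := by
      have := crd_add hvz (crd_C θ 1)
      have e1 : algebraMap O L (g₁ - g₂) + ((1 : ℤ) : L) = algebraMap O L (g₁ - g₂ + 1) := by
        rw [Int.cast_one, map_add, map_one]
      rwa [e1] at this
    have l2 : g₁ - g₂ + 1 ∈ 𝔮'.asIdeal := by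
      have : g₁ - g₂ + 1 = g₁ - (g₂ - 1) := by ring
      rw [this]
      exact 𝔮'.asIdeal.sub_mem hg₁q hg₂q
    have l3 := (mem_P2 hPr hns ht hQ.oq ht2 l1 l2).2
    simp at k3 l3
    apply hQ2
    have : (2 : ℤ) = (v 0 + 1 - a * v 2) - (v 0 + -1) + a * v 2 := by ring
    rw [this]
    exact dvd_add (dvd_sub l3 k3) (hdvd.mul_left _)
  have hind : ∃ i j, ¬ Q ∣ ξ i * ξ' j - ξ j * ξ' i := by
    by_contra hcon
    push Not at hcon
    have key : ∀ i, Q ∣ ξ i := by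
      intro i
      have h1 : Q ∣ ξ i * (ξ 0 * ξ' 2 + ξ 1 * ξ' 1 + ξ 2 * ξ' 0) := by
        have : ξ i * (ξ 0 * ξ' 2 + ξ 1 * ξ' 1 + ξ 2 * ξ' 0) =
            ξ' i * (2 * ξ 0 * ξ 2 + ξ 1 ^ 2) + ξ 0 * (ξ i * ξ' 2 - ξ 2 * ξ' i) +
            ξ 1 * (ξ i * ξ' 1 - ξ 1 * ξ' i) + ξ 2 * (ξ i * ξ' 0 - ξ 0 * ξ' i) := by ring
        rw [this]
        exact dvd_add (dvd_add (dvd_add (m1.mul_left _) ((hcon i 2).mul_left _))
          ((hcon i 1).mul_left _)) ((hcon i 0).mul_left _)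
      exact (hPr.dvd_or_dvd h1).resolve_right hpol
    exact hpol (dvd_add (dvd_add ((key 0).mul_right _) ((key 1).mul_right _))
      ((key 2).mul_right _))
  refine ⟨Pool.Agent.N774.PQ.prm hPr hQ2 _ _ _ _ _ ξ ξ' hind m1 m2 m1' m2', ?_, ?_⟩
  · rw [hA]
    exact hs
  · rw [hB]
    exact hQ.qb.mul_right _

end Pool.Agent.H25.PR.Loc0
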