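import Pool.Agent.H62.PR.Stm
import Pool.Graph.R_pool_sql_team_seeded_63374d34.N187.PP.GN
import Pool.Graph.R_pool_sql_team_seeded_63374d34.N630.PP.GP
import Pool.Graph.R_pool_sql_team_seeded_63374d34.N721.PP.GF

/-!
# Project PR (helper62), part PTR: a class which comes from a point over `F` is trivial over `F`

By helper25.
-/

set_option autoImplicit false
set_option linter.all false

open Polynomial IsDedekindDomain WeierstrassCurve WeierstrassCurve.Affine
open Pool.Agent.TH115.GD Pool.Agent.N874.PP Pool.Agent.N187.PP Pool.Agent.N721.PP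
open scoped Classical

namespace Pool.Agent.H25.PR

section

variable {M F : Type} [Field M] [Field F] [Algebra M F] {A B : M}

theorem g3 : S_GP3 := Pool.Agent.N630.PP.gp3
theorem g4 : S_GP4 := Pool.Agent.N630.PP.gp4

/-- Three zeros in a separably closed field. -/
theorem roots3 {Ω : Type} [Field Ω] [Algebra M Ω] [IsSepClosed Ω]
    (hd : 4 * A ^ 3 + 27 * B ^ 2 ≠ 0) : ∃ t₁ t₂ t₃ : Ω, t₁ ≠ t₂ ∧ t₁ ≠ t₃ ∧ t₂ ≠ t₃ ∧
      Rt A B t₁ ∧ Rt A B t₂ ∧ Rt A B t₃ := by
  have hd' : 4 * (algebraMap M Ω A) ^ 3 + 27 * (algebraMap M Ω B) ^ 2 ≠ 0 := by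
    have := (map_ne_zero (algebraMap M Ω)).2 hd
    rwa [map_add, map_mul, map_mul, map_pow, map_pow, map_ofNat, map_ofNat] at this
  obtain ⟨t₁, t₂, t₃, n1, n2, n3, hs, hA, hB⟩ := roots_exist hd'
  refine ⟨t₁, t₂, t₃, n1, n2, n3, ?_, ?_, ?_⟩
  · unfold Rt; rw [hA, hB]; linear_combination t₁ ^ 2 * hs
  · unfold Rt; rw [hA, hB]; linear_combination t₂ ^ 2 * hs
  · unfold Rt; rw [hA, hB]; linear_combination t₃ ^ 2 * hs

theorem ext_sg' {Ω : Type} [Field Ω] [Algebra M Ω] (h6 : (6 : M) ≠ 0)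
    (hd : 4 * A ^ 3 + 27 * B ^ 2 ≠ 0)
    {t₁ t₂ t₃ : Ω} (n1 : t₁ ≠ t₂) (n2 : t₁ ≠ t₃) (n3 : t₂ ≠ t₃) (r1 : Rt A B t₁)
    (r2 : Rt A B t₂) (r3 : Rt A B t₃) {S T : Pt (sW A B) Ω} (hS : (2 : ℕ) • S = 0)
    (hT : (2 : ℕ) • T = 0) (h1 : sg S t₁ = sg T t₁) (h2 : sg S t₂ = sg T t₂)
    (h3 : sg S t₃ = sg T t₃) : S = T := by
  obtain ⟨-, G2, G3, -⟩ := g3 M Ω A B h6 hd t₁ t₂ t₃ r1 r2 r3 n1 n2 n3
  have h2' : (2 : ℕ) • (S + T) = 0 := by rw [nsmul_add, hS, hT, add_zero]
  have h0 := G3 _ h2' (by rw [G2 S T _ hS hT r1, h1, sg_mul_self])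
    (by rw [G2 S T _ hS hT r2, h2, sg_mul_self]) (by rw [G2 S T _ hS hT r3, h3, sg_mul_self])
  have e : S = -T := eq_neg_of_add_eq_zero_left h0
  have e' : T = -T := eq_neg_of_add_eq_zero_left (by rw [← two_nsmul]; exact hT)
  rw [e, ← e']

theorem main (h6 : (6 : M) ≠ 0) (hd : 4 * A ^ 3 + 27 * B ^ 2 ≠ 0)
    (f : (Sep M ≃ₐ[M] Sep M) → Pt (sW A B) (Sep M)) (hf2 : ∀ σ, (2 : ℕ) • f σ = 0)
    (β : Sep M → Sep M) (hβ : IsBeta A B f β) (ι : Sep M →ₐ[M] Sep F)
    (R : Pt (sW A B) (Sep F)) (G : Sep F → Sep F)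
    (ha : ∀ τ : Sep F ≃ₐ[F] Sep F, (2 : ℕ) • (act (sW A B) (rs M τ) R - R) = 0)
    (hb0 : ∀ s : Sep F, Rt A B s → G s ≠ 0)
    (hb : ∀ s : Sep F, Rt A B s → ∀ τ : Sep F ≃ₐ[F] Sep F,
      τ (G s) = sg (act (sW A B) (rs M τ) R - R) (τ s) * G (τ s))
    (hc : ∀ t : Sep M, Rt A B t → ι (β t) ^ 2 = G (ι t) ^ 2) :
    LocTriv (sW A B) F (Sep F) f := by
  obtain ⟨t₁, t₂, t₃, n1, n2, n3, r1, r2, r3⟩ := roots3 (Ω := Sep M) hd
  have ιinj : Function.Injective ι := (ι : Sep M →+* Sep F).injective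
  have m1 : ι t₁ ≠ ι t₂ := fun h => n1 (ιinj h)
  have m2 : ι t₁ ≠ ι t₃ := fun h => n2 (ιinj h)
  have m3 : ι t₂ ≠ ι t₃ := fun h => n3 (ιinj h)
  have q1 : Rt A B (ι t₁) := rt_map ι r1
  have q2 : Rt A B (ι t₂) := rt_map ι r2
  have q3 : Rt A B (ι t₃) := rt_map ι r3
  obtain ⟨G1, G2, G3, G4⟩ := g3 M (Sep F) A B h6 hd _ _ _ q1 q2 q3 m1 m2 m3
  have hrt : ∀ s : Sep F, Rt A B s → ∃ t : Sep M, Rt A B t ∧ ι t = s := by
    intro s hs
    rcases root_cases m1 m2 m3 q1 q2 q3 hs with h | h | h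
    · exact ⟨t₁, r1, h.symm⟩
    · exact ⟨t₂, r2, h.symm⟩
    · exact ⟨t₃, r3, h.symm⟩
  -- the signs
  obtain ⟨T, G', hT, hG', hTs⟩ : ∃ (T : Pt (sW A B) (Sep F)) (G' : Sep F → Sep F),
      (2 : ℕ) • T = 0 ∧ ((∀ s, G' s = G s) ∨ (∀ s, G' s = - G s)) ∧
      ∀ t : Sep M, Rt A B t → ι (β t) = sg T (ι t) * G' (ι t) := by
    have hε : ∀ t : Sep M, Rt A B t → (ι (β t) / G (ι t) = 1 ∨ ι (β t) / G (ι t) = -1) := by
      intro t ht
      rw [← mul_self_eq_one_iff, ← pow_two, div_pow, hc t ht,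
        div_self (pow_ne_zero 2 (hb0 _ (rt_map ι ht)))]
    have hprod : (ι (β t₁) / G (ι t₁)) * (ι (β t₂) / G (ι t₂)) * (ι (β t₃) / G (ι t₃)) = 1 ∨
        (-(ι (β t₁) / G (ι t₁))) * (-(ι (β t₂) / G (ι t₂))) * (-(ι (β t₃) / G (ι t₃))) = 1 := by
      rcases hε _ r1 with h1 | h1 <;> rcases hε _ r2 with h2 | h2 <;> rcases hε _ r3 with h3 | h3 <;>
        rw [h1, h2, h3] <;> simp
    rcases hprod with hp | hp
    · obtain ⟨T, hT, s1, s2, s3⟩ := G4 _ _ _ (hε _ r1) (hε _ r2) (hε _ r3) hp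
      refine ⟨T, G, hT, Or.inl fun s => rfl, fun s hs => ?_⟩
      have hne := hb0 _ (rt_map ι hs)
      rcases root_cases n1 n2 n3 r1 r2 r3 hs with rfl | rfl | rfl
      · rw [s1, div_mul_cancel₀ _ hne]
      · rw [s2, div_mul_cancel₀ _ hne]
      · rw [s3, div_mul_cancel₀ _ hne]
    · have hε' : ∀ t : Sep M, Rt A B t →
          (-(ι (β t) / G (ι t)) = 1 ∨ -(ι (β t) / G (ι t)) = -1) := by
        intro s hs
        rcases hε s hs with h | h <;> rw [h] <;> simp
      obtain ⟨T, hT, s1, s2, s3⟩ := G4 _ _ _ (hε' _ r1) (hε' _ r2) (hε' _ r3) hp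
      refine ⟨T, fun s => -G s, hT, Or.inr fun s => rfl, fun s hs => ?_⟩
      have hne := hb0 _ (rt_map ι hs)
      rcases root_cases n1 n2 n3 r1 r2 r3 hs with rfl | rfl | rfl
      · rw [s1, neg_mul_neg, div_mul_cancel₀ _ hne]
      · rw [s2, neg_mul_neg, div_mul_cancel₀ _ hne]
      · rw [s3, neg_mul_neg, div_mul_cancel₀ _ hne]
  have hb0' : ∀ s : Sep F, Rt A B s → G' s ≠ 0 := by
    intro s hs
    rcases hG' with h | h
    · rw [h]; exact hb0 s hs
    · rw [h]; exact neg_ne_zero.2 (hb0 s hs)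
  have hb' : ∀ s : Sep F, Rt A B s → ∀ τ : Sep F ≃ₐ[F] Sep F,
      τ (G' s) = sg (act (sW A B) (rs M τ) R - R) (τ s) * G' (τ s) := by
    intro s hs τ
    rcases hG' with h | h
    · rw [h, h]; exact hb s hs τ
    · rw [h, h, map_neg, hb s hs τ]; ring
  refine ⟨ι, R + T, fun τ σ hτσ => ?_⟩
  have hTn : -T = T := (eq_neg_of_add_eq_zero_left (by rw [← two_nsmul]; exact hT)).symm
  have hTτ : (2 : ℕ) • act (sW A B) (rs M τ) T = 0 := by rw [← map_nsmul, hT, map_zero]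
  set D := act (sW A B) (rs M τ) R - R with hD
  have e0 : act (sW A B) (rs M τ) (R + T) - (R + T) = D + (act (sW A B) (rs M τ) T + T) := by
    rw [map_add, hD]
    have : act (sW A B) (rs M τ) T + T = act (sW A B) (rs M τ) T - T := by
      rw [sub_eq_add_neg, hTn]
    rw [this]; abel
  rw [e0]
  have h2TT : (2 : ℕ) • (act (sW A B) (rs M τ) T + T) = 0 := by
    rw [nsmul_add, hTτ, hT, add_zero]
  have h2ι : (2 : ℕ) • act (sW A B) (ι.restrictScalars M) (f σ) = 0 := by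
    rw [← map_nsmul, hf2, map_zero]
  have key : ∀ t : Sep M, Rt A B t → sg (act (sW A B) (ι.restrictScalars M) (f σ)) (ι (σ t)) =
      sg (D + (act (sW A B) (rs M τ) T + T)) (ι (σ t)) := by
    intro t ht
    have hs' : Rt A B (ι (σ t)) := rt_map ι (rt_map' σ ht)
    have hs : Rt A B (ι t) := rt_map ι ht
    have hst : τ (ι t) = ι (σ t) := hτσ t
    rw [G2 _ _ _ (ha τ) h2TT hs', G2 _ _ _ hTτ hT hs']
    have z1 : sg (act (sW A B) (rs M τ) T) (ι (σ t)) = sg T (ι t) := by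
      have h := (g4 M (Sep F) (Sep F) A B (rs M τ) T (ι t)).1
      have e' : (rs M τ : Sep F →ₐ[M] Sep F) (ι t) = τ (ι t) := rfl
      rw [e', hst] at h
      rw [h]
      rcases sg_sq T (ι t) with h1 | h1 <;> rw [h1] <;> simp
    have z2 : sg (act (sW A B) (ι.restrictScalars M) (f σ)) (ι (σ t)) = ι (sg (f σ) (σ t)) :=
      (g4 M (Sep M) (Sep F) A B (ι.restrictScalars M) (f σ) (σ t)).1
    rw [z1]
    have a1 := hTs t ht
    have a2 := hTs (σ t) (rt_map' σ ht)
    have a3 : τ (ι (β t)) = ι (σ (β t)) := hτσ (β t)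
    rw [(hβ t ht).2 σ, map_mul, a2, ← z2, a1, map_mul, hb' _ hs τ, hst] at a3
    have a4 : τ (sg T (ι t)) = sg T (ι t) := by
      rcases sg_sq T (ι t) with h1 | h1 <;> rw [h1] <;> simp
    rw [a4] at a3
    have p1 := sg_mul_self T (ι (σ t))
    apply mul_right_cancel₀ (hb0' _ hs')
    linear_combination (-sg T (ι (σ t))) * a3 -
      (sg (act (sW A B) (ι.restrictScalars M) (f σ)) (ι (σ t)) * G' (ι (σ t))) * p1
  have hroot : ∀ s : Sep F, Rt A B s → sg (act (sW A B) (ι.restrictScalars M) (f σ)) s =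
      sg (D + (act (sW A B) (rs M τ) T + T)) s := by
    intro s hs
    obtain ⟨t, ht, rfl⟩ := hrt s hs
    have e : σ (σ⁻¹ t) = t := by rw [← AlgEquiv.mul_apply, mul_inv_cancel, AlgEquiv.one_apply]
    have := key (σ⁻¹ t) (rt_map' σ⁻¹ ht)
    rwa [e] at this
  refine ext_sg' h6 hd m1 m2 m3 q1 q2 q3 h2ι ?_ (hroot _ q1) (hroot _ q2) (hroot _ q3)
  rw [nsmul_add, ha τ, h2TT, add_zero]

theorem ptr : Pool.Agent.H62.PR.S_PTR := by
  intro M F _ _ _ A B h6 hd f hf hf2 β h hβ hh hP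
  haveI : Algebra.IsSeparable M (Sep M) := IsSepClosure.separable
  let ι : Sep M →ₐ[M] Sep F := IsSepClosed.lift
  have hιh : ∀ t : Sep M, Rt A B t → ι (β t) ^ 2 = aeval (ι t) h := by
    intro t ht
    rw [← map_pow, ← hh t ht, ← aeval_algHom_apply]
  have ιinj : Function.Injective ι := (ι : Sep M →+* Sep F).injective
  obtain ⟨t₁, t₂, t₃, n1, n2, n3, r1, r2, r3⟩ := roots3 (Ω := Sep M) hd
  have hrt : ∀ s : Sep F, Rt A B s → ∃ t : Sep M, Rt A B t ∧ ι t = s := by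
    intro s hs
    rcases root_cases (fun h => n1 (ιinj h)) (fun h => n2 (ιinj h)) (fun h => n3 (ιinj h))
      (rt_map ι r1) (rt_map ι r2) (rt_map ι r3) hs with h | h | h
    · exact ⟨t₁, r1, h.symm⟩
    · exact ⟨t₂, r2, h.symm⟩
    · exact ⟨t₃, r3, h.symm⟩
  have hne : ∀ s : Sep F, Rt A B s → aeval s h ≠ 0 := by
    intro s hs
    obtain ⟨t, ht, rfl⟩ := hrt s hs
    rw [← hιh t ht]
    refine pow_ne_zero 2 ?_
    rw [Ne, map_eq_zero_iff _ ιinj]
    exact (hβ t ht).1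
  -- evaluation of polynomials over `F` at the zeros
  have hev : ∀ (p g : F[X]), X ^ 3 + C (algebraMap M F A) * X + C (algebraMap M F B) ∣ p - g ^ 2 →
      ∀ s : Sep F, Rt A B s → aeval s p = (aeval s g) ^ 2 := by
    rintro p g ⟨q, hq⟩ s hs
    have e : aeval s (p - g ^ 2) = 0 := by
      rw [hq, map_mul]
      have : aeval s (X ^ 3 + C (algebraMap M F A) * X + C (algebraMap M F B) : F[X]) = 0 := by
        simp only [map_add, map_mul, map_pow, aeval_X, aeval_C,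
          ← IsScalarTower.algebraMap_apply M F (Sep F)]
        exact hs
      rw [this, zero_mul]
    rw [map_sub, map_pow] at e
    exact sub_eq_zero.1 e
  have hmap : ∀ s : Sep F, aeval s (h.map (algebraMap M F)) = aeval s h := by
    intro s
    exact aeval_map_algebraMap F s h
  have hτg : ∀ (g : F[X]) (τ : Sep F ≃ₐ[F] Sep F) (s : Sep F), τ (aeval s g) = aeval (τ s) g := by
    intro g τ s
    exact (aeval_algHom_apply τ.toAlgHom s g).symm
  rcases hP with ⟨g, hg⟩ | ⟨x, y, hy, hxy, g, hg⟩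
  · have hg' := hev _ g hg
    refine main h6 hd f hf2 β hβ ι 0 (fun s => aeval s g) (fun τ => by simp) ?_ ?_ ?_
    · intro s hs h0
      have := hg' s hs
      rw [hmap, show (aeval s) g = 0 from h0] at this
      exact hne s hs (by rw [this]; ring)
    · intro s hs τ
      show τ (aeval s g) = _ * aeval (τ s) g
      rw [map_zero, sub_zero, Pool.Agent.N187.PP.sg_zero, one_mul, hτg]
    · intro t ht
      rw [hιh t ht, ← hmap, hg' _ (rt_map ι ht)]
  · -- the point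
    have h6F : (6 : Sep F) ≠ 0 := by
      have := (map_ne_zero (algebraMap M (Sep F))).2 h6
      rwa [map_ofNat] at this
    have h2F : (2 : Sep F) ≠ 0 := by
      intro h
      apply h6F
      rw [show (6 : Sep F) = 2 * 3 by norm_num, h, zero_mul]
    have hdF : 4 * (algebraMap M (Sep F) A) ^ 3 + 27 * (algebraMap M (Sep F) B) ^ 2 ≠ 0 := by
      have := (map_ne_zero (algebraMap M (Sep F))).2 hd
      rwa [map_add, map_mul, map_mul, map_pow, map_pow, map_ofNat, map_ofNat] at this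
    have hns : ((sW A B).baseChange F).toAffine.Nonsingular x y := by
      have h2 : (2 : F) ≠ 0 := by
        intro h
        have h6' := (map_ne_zero (algebraMap M F)).2 h6
        rw [map_ofNat] at h6'
        apply h6'
        rw [show (6 : F) = 2 * 3 by norm_num, h, zero_mul]
      rw [WeierstrassCurve.Affine.nonsingular_iff, WeierstrassCurve.Affine.equation_iff]
      have I := isS A B F
      rw [I.a1, I.a2, I.a3, I.a4, I.a6]
      refine ⟨by linear_combination hxy, Or.inr ?_⟩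
      intro h
      apply hy
      have : 2 * y = 0 := by linear_combination h
      exact (mul_eq_zero.1 this).resolve_left h2
    set Q0 : Pt (sW A B) F := Point.some x y hns with hQ0
    set Q : Pt (sW A B) (Sep F) := act (sW A B) (incl M F (Sep F)) Q0 with hQ
    obtain ⟨R, hR⟩ := halve_sep (isS A B (Sep F)) h2F hdF Q
    obtain ⟨hns', hQs⟩ := act_some (sW A B) (incl M F (Sep F)) hns
    have hQx : Q = Point.some (algebraMap F (Sep F) x) (algebraMap F (Sep F) y) hns' := hQs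
    have hR2 : (2 : ℕ) • R = Q := by rw [two_nsmul]; exact hR
    have hRne : (2 : ℕ) • R ≠ 0 := by rw [hR2, hQx]; exact Point.some_ne_zero _
    obtain ⟨x', y', hns'', he, hrr⟩ := Pool.Agent.N630.PP.gp1 M (Sep F) A B h6 hd R hRne
    have hx' : x' = algebraMap F (Sep F) x := by
      rw [hR2, hQx] at he
      have := (Point.some.injEq _ _ _ _ _ _).mp he
      exact this.1.symm
    have hda : ∀ τ : Sep F ≃ₐ[F] Sep F, (2 : ℕ) • (act (sW A B) (rs M τ) R - R) = 0 := by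
      intro τ
      rw [smul_sub, ← map_nsmul, hR2, hQ, rs_act_incl, sub_self]
    have hg' := hev _ g hg
    have hgs : ∀ s : Sep F, Rt A B s → (aeval s g) ^ 2 = rr s R ^ 2 * aeval s h := by
      intro s hs
      rw [← hg' s hs, map_mul, hmap, map_sub, aeval_C, aeval_X, hrr s hs, hx']
    have hrr0 : ∀ s : Sep F, Rt A B s → rr s R ≠ 0 := by
      intro s hs h0
      have e1 := hrr s hs
      rw [h0, hx'] at e1
      have e2 : s = algebraMap F (Sep F) x := by linear_combination e1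
      have e3 : (algebraMap F (Sep F) y) ^ 2 = 0 := by
        rw [← map_pow, hxy]
        simp only [map_add, map_mul, map_pow, ← IsScalarTower.algebraMap_apply M F (Sep F)]
        rw [← e2]
        exact hs
      rw [← map_pow, map_eq_zero] at e3
      exact hy (pow_eq_zero_iff two_ne_zero |>.1 e3)
    refine main h6 hd f hf2 β hβ ι R (fun s => aeval s g / rr s R) hda ?_ ?_ ?_
    · intro s hs
      refine div_ne_zero ?_ (hrr0 s hs)
      intro h0
      have := hgs s hs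
      rw [h0] at this
      exact mul_ne_zero (pow_ne_zero 2 (hrr0 s hs)) (hne s hs) (by rw [← this]; ring)
    · intro s hs τ
      show τ (aeval s g / rr s R) = _ * (aeval (τ s) g / rr (τ s) R)
      have hs' : Rt A B (τ s) := rt_map (rs M τ) hs
      have e1 : rr (τ s) (act (sW A B) (rs M τ) R) = τ (rr s R) :=
        (g4 M (Sep F) (Sep F) A B (rs M τ) R s).2
      have e2 := Pool.Agent.N630.PP.gp2 M (Sep F) A B h6 hd R (act (sW A B) (rs M τ) R - R) hRne
        (hda τ) (τ s) hs'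
      rw [add_sub_cancel] at e2
      rw [map_div₀, hτg, ← e1, e2]
      have p := sg_mul_self (act (sW A B) (rs M τ) R - R) (τ s)
      have p0 := Pool.Agent.N187.PP.sg_ne (act (sW A B) (rs M τ) R - R) (τ s)
      have p1 := hrr0 _ hs'
      field_simp
      linear_combination (-aeval (τ s) g) * p
    · intro t ht
      have hs := rt_map ι ht
      show ι (β t) ^ 2 = (aeval (ι t) g / rr (ι t) R) ^ 2
      rw [hιh t ht, div_pow, hgs _ hs, mul_div_cancel_left₀ _ (pow_ne_zero 2 (hrr0 _ hs))]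

end

end Pool.Agent.H25.PR
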