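import Pool.Agent.H62.PR.Sel0
import Pool.Agent.H62.PR.Lat3
import Pool.Agent.H25.PR.Coc
import Pool.Agent.H25.PR.Ptr
import Pool.Agent.H25.PR.Dp
import Pool.Agent.H6.PR.RE
import Pool.Agent.H6.PR.T2
import Pool.Agent.H75.PR.I3
import Pool.Graph.R_pool_sql_team_seeded_63374d34.N849.PQ.Int
import Pool.Graph.R_pool_sql_team_seeded_63374d34.N747.PQ.Exq
import Pool.Graph.R_pool_sql_team_seeded_63374d34.N922.PQ.Big4

/-!
# Project PR, part REV (helper25)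
-/

set_option autoImplicit false
set_option linter.all false

namespace Pool.Agent.H25.PR.Rev

local instance (p : Nat.Primes) : Fact p.1.Prime := ⟨p.2⟩

attribute [local instance 2000] IsDedekindDomain.HeightOneSpectrum.instAlgebraAdicCompletion in
/-- From `ℚ_[p]` to the completion. -/
noncomputable def φc (v : IsDedekindDomain.HeightOneSpectrum (NumberField.RingOfIntegers ℚ)) :
    ℚ_[((Rat.HeightOneSpectrum.primesEquiv v : Nat.Primes) : ℕ)] →+* v.adicCompletion ℚ :=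
  ((Rat.HeightOneSpectrum.adicCompletion.padicEquiv v).toAlgEquiv.toRingEquiv.symm).toRingHom

end Pool.Agent.H25.PR.Rev

open Polynomial IsDedekindDomain WeierstrassCurve WeierstrassCurve.Affine NumberField
open Pool.Agent.TH115.GD
open scoped Classical IntermediateField

namespace Pool.Agent.H25.PR.Rev

open Pool.Agent.N874.PP (Tup chA chB gq tau Two Ev Sq1 U0 sW IsBeta Rt)
open Pool.Agent.N874.PM (PLoc Lies SelR ShaR)
open Pool.Agent.N922.PQ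
open Pool.Agent.H62.PR

/-- `PLoc` is functorial. -/
theorem ploc_map {F F' : Type} [Field F] [Field F'] [Algebra ℚ F] [Algebra ℚ F'] (φ : F →+* F')
    {A B : ℚ} {h : ℚ[X]} (H : PLoc F A B h) : PLoc F' A B h := by
  have hφ : φ.comp (algebraMap ℚ F) = algebraMap ℚ F' := Subsingleton.elim _ _
  have hφ' : ∀ q : ℚ, φ (algebraMap ℚ F q) = algebraMap ℚ F' q := fun q => by
    rw [← hφ]; rfl
  have hh : (h.map (algebraMap ℚ F)).map φ = h.map (algebraMap ℚ F') := by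
    rw [Polynomial.map_map, hφ]
  rcases H with ⟨g, hg⟩ | ⟨x, y, hy, hxy, g, hg⟩
  · left
    refine ⟨g.map φ, ?_⟩
    have := Polynomial.map_dvd φ hg
    simpa only [Polynomial.map_add, Polynomial.map_mul, Polynomial.map_pow, Polynomial.map_X,
      Polynomial.map_C, Polynomial.map_sub, hh, hφ'] using this
  · right
    refine ⟨φ x, φ y, (map_ne_zero φ).2 hy, ?_, g.map φ, ?_⟩
    · have := congrArg φ hxy
      simpa only [map_add, map_mul, map_pow, hφ'] using this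
    · have := Polynomial.map_dvd φ hg
      simpa only [Polynomial.map_add, Polynomial.map_mul, Polynomial.map_pow, Polynomial.map_X,
        Polynomial.map_C, Polynomial.map_sub, hh, hφ'] using this

/-- From `ℚ_[p]` to the completions. -/
theorem ploc_comp {A B : ℚ} {h : ℚ[X]} (H : ∀ (p : ℕ) [Fact p.Prime], PLoc ℚ_[p] A B h)
    (v : HeightOneSpectrum (𝓞 ℚ)) : PLoc (Comp (𝓞 ℚ) ℚ v) A B h := by
  haveI : Fact ((Rat.HeightOneSpectrum.primesEquiv v : Nat.Primes) : ℕ).Prime :=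
    ⟨(Rat.HeightOneSpectrum.primesEquiv v).2⟩
  let φ : ℚ_[((Rat.HeightOneSpectrum.primesEquiv v : Nat.Primes) : ℕ)] →+* Comp (𝓞 ℚ) ℚ v := φc v
  exact ploc_map φ (H _)

section

variable {L : Type} [Field L] [NumberField L] {a b : ℤ} {θ : L} {X' : ℕ} {S T : Finset ℤ}
  {s A B : ℤ → ℤ} {𝔮 : ℤ → HeightOneSpectrum (𝓞 L)}

/-- The local conditions. -/
theorem loc_p (hGM : S_GM) (hD : Dt a b θ X' S T s A B 𝔮) (J : Finset ℤ) (hJ : J ⊆ S)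
    {h : ℚ[X]} (hα : aeval (((∏ Q ∈ J, Q : ℤ) : L) * θ) h ∈ Mset a b θ S 𝔮)
    (hU : ∀ Q ∈ J, U0 (𝔮 Q) ((Q : L) * θ) (aeval (((∏ Q ∈ J, Q : ℤ) : L) * θ) h))
    (hE : ∀ Q ∈ S, Q ∉ J → Ev (𝔮 Q) (aeval (((∏ Q ∈ J, Q : ℤ) : L) * θ) h))
    (p : ℕ) [hp : Fact p.Prime] :
    PLoc ℚ_[p] ((a * (∏ Q ∈ J, Q) ^ 2 : ℤ) : ℚ) ((b * (∏ Q ∈ J, Q) ^ 3 : ℤ) : ℚ) h := by
  have hI : S_INT := Pool.Agent.N849.PQ.int
  obtain ⟨hα0, hsq, h2, hev⟩ := hα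
  have hPr : ∀ Q ∈ J, IsPr Q := fun Q hQ => (hD.hS Q (hJ hQ)).1
  have hD0 : 0 < ∏ Q ∈ J, Q := Finset.prod_pos fun Q hQ => (hPr Q hQ).1
  have hD8 : (∏ Q ∈ J, Q) % 8 = 1 := prod_mod8 fun Q hQ => (hD.hS Q (hJ hQ)).2.1
  have hpP : IsPr (p : ℤ) := ⟨by exact_mod_cast hp.1.pos, Nat.prime_iff_prime_int.1 hp.1⟩
  by_cases hp2 : p = 2
  · subst hp2
    apply Pool.Agent.H6.PR.t2 a b _ hD0 hD8 h
    apply h2
    rw [aeval_comp, map_mul, aeval_X, aeval_C, map_intCast]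
  by_cases hpD : (p : ℤ) ∣ ∏ Q ∈ J, Q
  · -- `p ∣ D`
    have hpJ : (p : ℤ) ∈ J := by
      by_contra hn
      exact not_dvd_prod hPr hpP hn hpD
    have hpb := hD.hF.rb _ (hJ hpJ)
    have hns := fam_ns hD.hS hD.hF (hJ hpJ)
    refine Pool.Agent.H25.PR.Dp.dp L (𝓞 L) a b _ θ hD.hc hD.hF.sq p hp2 hpb hns hpD ?_ h hα0 hsq
      ?_ ?_
    · rintro ⟨c, hc⟩
      rw [← D1_mul hpJ] at hc
      apply not_dvd_D1 hPr hpJ
      refine ⟨c, ?_⟩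
      have h0 : (p : ℤ) ≠ 0 := hpP.1.ne'
      apply mul_left_cancel₀ h0
      rw [hc]
      ring
    · intro 𝔓 h𝔓 h1
      obtain ⟨𝔓₁, 𝔮', -, -, t1, t2, -, hall⟩ := Pool.Agent.N747.PQ.exq hI L (𝓞 L) a b θ hD.hc
        hD.hF.sq (p : ℤ) hpP.2 hpb hns
      have e1 : 𝔓 = 𝔮' := by
        refine (hall 𝔓 h𝔓).resolve_left fun e => ?_
        rw [e] at h1
        rw [h1] at t1
        exact lt_irrefl _ t1
      have e2 : 𝔮 p = 𝔮' := by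
        refine (hall _ (hD.hq _ (hJ hpJ)).1).resolve_left fun e => ?_
        have h1 := (hD.hq _ (hJ hpJ)).2
        rw [e] at h1
        rw [h1] at t1
        exact lt_irrefl _ t1
      rw [e1, ← e2]
      have h3 := hU _ hpJ
      rw [Int.cast_natCast] at h3
      exact h3
    · intro 𝔓 h𝔓 h1
      apply hev
      intro Q hQ e
      rw [e, (hD.hq Q hQ).2] at h1
      exact lt_irrefl _ h1
  by_cases hp3 : p = 3
  · subst hp3
    exact Pool.Agent.H75.PR.s_I3 L a b _ θ hD.hc 3 (by norm_num) hpD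
      (fun z => by exact_mod_cast fam_nt hD.hT hD.hF hD.hT.2.1 z) h hα0 hsq
  have hp5 : 5 ≤ p := by
    have h2 := hp.1.two_le
    by_contra hlt
    have : p = 4 := by omega
    rw [this] at hp
    exact absurd hp.1 (by norm_num)
  refine hGM L (𝓞 L) a b _ θ hD.hc hD.hF.sq p hp5 hpD h hα0 hsq ?_
  intro 𝔓 h𝔓
  by_cases hex : ∃ Q ∈ S, 𝔓 = 𝔮 Q
  · obtain ⟨Q, hQ, rfl⟩ := hex
    have hpQ : (p : ℤ) = Q := below_unique hpP (hD.hS Q hQ).1 h𝔓 (hD.hq Q hQ).1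
    apply hE Q hQ
    intro hQJ
    apply hpD
    rw [hpQ]
    exact Finset.dvd_prod_of_mem _ hQJ
  · apply hev
    intro Q hQ e
    exact hex ⟨Q, hQ, e⟩

end

theorem two_eq {P : Prop} [Decidable P] (h : (if P then (0 : ZMod 2) else 1) = 0) : P := by
  by_contra hn
  rw [if_neg hn] at h
  exact one_ne_zero h

/-- **REV** -/
theorem rev (hGM : S_GM) : S_REV := by
  intro L _ _ a b θ X' S T s A B 𝔮 hD J D hJD α hα hψ
  -- the set of integers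
  obtain ⟨J', hJ'⟩ : ∃ J' : Finset ℤ, J' = J.map (Function.Embedding.subtype _) := ⟨_, rfl⟩
  have hJS : J' ⊆ S := by
    intro Q hQ
    rw [hJ', Finset.mem_map] at hQ
    obtain ⟨x, -, rfl⟩ := hQ
    exact x.2
  have hDJ : D = ∏ Q ∈ J', Q := by
    rw [hJD, hJ', Finset.prod_map]
    rfl
  subst hDJ
  have hPr : ∀ Q ∈ J', IsPr Q := fun Q hQ => (hD.hS Q (hJS hQ)).1
  have hD0 : 0 < ∏ Q ∈ J', Q := Finset.prod_pos fun Q hQ => (hPr Q hQ).1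
  have hDL : ((∏ Q ∈ J', Q : ℤ) : L) ≠ 0 := by exact_mod_cast hD0.ne'
  obtain ⟨hα0, hsq, h2, hev⟩ := hα
  -- the polynomial
  obtain ⟨h, hh⟩ : ∃ h : ℚ[X], aeval (((∏ Q ∈ J', Q : ℤ) : L) * θ) h = α := by
    obtain ⟨r, u, w, rfl⟩ := hD.hc.gen α
    refine ⟨C r + C (u / ((∏ Q ∈ J', Q : ℤ) : ℚ)) * X +
      C (w / ((∏ Q ∈ J', Q : ℤ) : ℚ) ^ 2) * X ^ 2, ?_⟩
    simp only [map_add, map_mul, map_pow, aeval_X, aeval_C, eq_ratCast, Rat.cast_div, Rat.cast_pow,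
      Rat.cast_intCast]
    field_simp
  have hrt : Rt ((a * (∏ Q ∈ J', Q) ^ 2 : ℤ) : ℚ) ((b * (∏ Q ∈ J', Q) ^ 3 : ℤ) : ℚ)
      (((∏ Q ∈ J', Q : ℤ) : L) * θ) := by
    unfold Rt
    simp only [eq_ratCast, Rat.cast_intCast]
    push_cast
    have := hD.hc.root
    linear_combination (∏ Q ∈ J', (Q : L)) ^ 3 * this
  have ha : (0 : ℚ) < ((a * (∏ Q ∈ J', Q) ^ 2 : ℤ) : ℚ) := by
    have := hD.hF.pa
    exact_mod_cast mul_pos this (pow_pos hD0 2)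
  have h6 : (6 : ℚ) ≠ 0 := by norm_num
  have hd : 4 * ((a * (∏ Q ∈ J', Q) ^ 2 : ℤ) : ℚ) ^ 3 +
      27 * ((b * (∏ Q ∈ J', Q) ^ 3 : ℤ) : ℚ) ^ 2 ≠ 0 := by positivity
  have hirr : Irreducible (X ^ 3 + C (((a * (∏ Q ∈ J', Q) ^ 2 : ℤ) : ℚ)) * X +
      C (((b * (∏ Q ∈ J', Q) ^ 3 : ℤ) : ℚ)) : ℚ[X]) :=
    irr_tw (algebraMap ℚ ℚ_[2]) (fam_nt hD.hT hD.hF hD.hT.1) hD0.ne'
  have hα' : aeval (((∏ Q ∈ J', Q : ℤ) : L) * θ) h ∈ Mset a b θ S 𝔮 := by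
    rw [hh]; exact ⟨hα0, hsq, h2, hev⟩
  obtain ⟨f, β, hf, hf2, hβ, hβh⟩ := Pool.Agent.H25.PR.coc ℚ _ _ h6 hd hirr h
    ⟨L, inferInstance, inferInstance, _, hrt, hD.hc.rank, hα'.1, hα'.2.1⟩
  have hU : ∀ Q ∈ J', U0 (𝔮 Q) ((Q : L) * θ) (aeval (((∏ Q ∈ J', Q : ℤ) : L) * θ) h) := by
    intro Q hQ
    rw [hh]
    have h1 := hψ.1
    rw [hJ', Finset.mem_map] at hQ
    obtain ⟨x, hx, rfl⟩ := hQ
    exact two_eq (h1 x hx)
  have hE : ∀ Q ∈ S, Q ∉ J' → Ev (𝔮 Q) (aeval (((∏ Q ∈ J', Q : ℤ) : L) * θ) h) := by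
    intro Q hQ hn
    rw [hh]
    have h1 := hψ.2 ⟨Q, hQ⟩ (fun hx => hn (by
      rw [hJ', Finset.mem_map]
      exact ⟨_, hx, rfl⟩))
    exact two_eq h1
  refine ⟨f, ⟨hf, hf2, ?_, ?_⟩, β, h, hβ, hβh, hh⟩
  · intro v
    exact Pool.Agent.H25.PR.ptr ℚ (Comp (𝓞 ℚ) ℚ v) _ _ h6 hd f hf hf2 β h hβ hβh
      (ploc_comp (fun p _ => loc_p hGM hD J' hJS hα' hU hE p) v)
  · exact Pool.Agent.H25.PR.ptr ℚ ℝ _ _ h6 hd f hf hf2 β h hβ hβh
      (Pool.Agent.H6.PR.re L _ _ ha _ h hrt hD.hc.rank hα'.1 hα'.2.1)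

end Pool.Agent.H25.PR.Rev
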